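import Pool.Agent.Helper51.EA.Defs

/-!
# Block EA-D2: from a grid to all points

Proof. `T_A(t) = |∑_{k<A} e(kt)|² = ∑_{k,l<A} e((k-l)t)`, `A = G - N`, `B = N`. For `1 ≤ n ≤ N`
`(1/G) ∑_{j<G} e(n j/G) e(N(x-j/G)) T_A(x-j/G) = (A - (N-n)) e(n x)`, the same with `B`; the difference is `(A-B) e(n x)`, so
`(A-B) F(x) = (1/G) ∑_j F(j/G) e(N(x-j/G)) (T_A - T_B)(x-j/G)`, `(1/G) ∑_j (T_A+T_B)(x-j/G) = A+B = G`. Hence
`|F(x)| ≤ G/(G-2N) M ≤ (1+8N/G) M`.
-/

set_option autoImplicit false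

namespace Pool.Agent.Helper51.EA

open Finset Pool.Agent.Helper5.RM

private lemma d2_e_pow (y : ℝ) (j : ℕ) : e (j * y) = e y ^ j := by
  unfold e
  rw [← Complex.exp_nat_mul]
  congr 1
  push_cast
  ring

private lemma d2_orth (N : ℕ) (hN : 1 ≤ N) (d : ℤ) (hd : |d| < N) :
    ∑ j ∈ range N, e (d * ((j : ℝ) / N)) = if d = 0 then (N : ℂ) else 0 := by
  have hN0 : (N : ℝ) ≠ 0 := by
    have : 0 < N := hN
    positivity
  split_ifs with h
  · subst h
    simp [e_zero]
  · have h1 : ∀ j : ℕ, e (d * ((j : ℝ) / N)) = e (d / N) ^ j := by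
      intro j
      rw [← d2_e_pow]
      congr 1
      ring
    simp only [h1]
    have h2 : e ((d : ℝ) / N) ^ N = 1 := by
      rw [← d2_e_pow, mul_div_cancel₀ _ hN0]
      exact e_int d
    have h3 : e ((d : ℝ) / N) ≠ 1 := by
      intro h4
      unfold e at h4
      rw [Complex.exp_eq_one_iff] at h4
      obtain ⟨n, hn⟩ := h4
      have h5 : ((((d : ℝ) / N : ℝ)) : ℂ) = n := by
        have hpi : (2 * (Real.pi : ℂ) * Complex.I) ≠ 0 := Complex.two_pi_I_ne_zero
        apply mul_right_cancel₀ hpi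
        rw [← hn]
        ring
      have h6 : (d : ℝ) / N = n := by exact_mod_cast h5
      have h7 : (d : ℝ) = n * N := by
        field_simp at h6
        linarith
      have h8 : d = n * N := by exact_mod_cast h7
      rcases eq_or_ne n 0 with h9 | h9
      · rw [h9, zero_mul] at h8
        exact h h8
      · have h10 : (N : ℤ) ≤ |d| := by
          rw [h8, abs_mul, Nat.abs_cast]
          have : 1 ≤ |n| := Int.one_le_abs h9
          nlinarith [Int.natCast_nonneg N]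
        omega
    have h4 := mul_neg_geom_sum (e ((d : ℝ) / N)) N
    rw [h2, sub_self] at h4
    rcases mul_eq_zero.1 h4 with h5 | h5
    · exact absurd (sub_eq_zero.1 h5).symm h3
    · exact h5

/-- the Fejer kernel `|∑_{k<A} e(kt)|²` as a double sum -/
private noncomputable def TT (A : ℕ) (t : ℝ) : ℂ := ∑ k ∈ range A, ∑ l ∈ range A, e (((k : ℝ) - l) * t)

private lemma TT_eq (A : ℕ) (t : ℝ) : TT A t = ((‖∑ k ∈ range A, e (k * t)‖ ^ 2 : ℝ) : ℂ) := by
  have h1 : ((‖∑ k ∈ range A, e (k * t)‖ ^ 2 : ℝ) : ℂ) =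
      (∑ k ∈ range A, e (k * t)) * (starRingEnd ℂ) (∑ k ∈ range A, e (k * t)) := by
    rw [Complex.mul_conj, Complex.normSq_eq_norm_sq]
  rw [h1, map_sum, Finset.sum_mul_sum]
  unfold TT
  refine Finset.sum_congr rfl fun k _ => Finset.sum_congr rfl fun l _ => ?_
  rw [← e_neg, ← e_add]
  congr 1
  ring

/-- one frequency against the kernel -/
private lemma TT_coef (G N A n : ℕ) (hG : 1 ≤ G) (hA : A + N ≤ G) (hn1 : 1 ≤ n) (hn : n ≤ N) (hAn : N ≤ A) (x : ℝ) :
    ∑ j ∈ range G, e (n * ((j : ℝ) / G)) * (e (N * (x - (j : ℝ) / G)) * TT A (x - (j : ℝ) / G)) =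
      (G : ℂ) * ((A - (N - n) : ℕ) : ℂ) * e (n * x) := by
  have h1 : ∀ j ∈ range G, e (n * ((j : ℝ) / G)) * (e (N * (x - (j : ℝ) / G)) * TT A (x - (j : ℝ) / G)) =
      ∑ k ∈ range A, ∑ l ∈ range A, e (((N : ℝ) + k - l) * x) *
        e ((((n : ℤ) - N - k + l : ℤ) : ℝ) * ((j : ℝ) / G)) := by
    intro j _
    unfold TT
    rw [Finset.mul_sum, Finset.mul_sum]
    refine Finset.sum_congr rfl fun k _ => ?_
    rw [Finset.mul_sum, Finset.mul_sum]
    refine Finset.sum_congr rfl fun l _ => ?_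
    rw [← e_add, ← e_add, ← e_add]
    congr 1
    push_cast
    ring
  rw [Finset.sum_congr rfl h1, Finset.sum_comm]
  have h2 : ∀ k ∈ range A, ∑ j ∈ range G, ∑ l ∈ range A, e (((N : ℝ) + k - l) * x) *
        e ((((n : ℤ) - N - k + l : ℤ) : ℝ) * ((j : ℝ) / G)) =
      ∑ l ∈ range A, (if l = k + (N - n) then (G : ℂ) * e (n * x) else 0) := by
    intro k hk
    rw [Finset.sum_comm]
    refine Finset.sum_congr rfl fun l hl => ?_
    rw [← Finset.mul_sum, d2_orth G hG]
    · have hk' := Finset.mem_range.1 hk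
      have hl' := Finset.mem_range.1 hl
      by_cases h : l = k + (N - n)
      · rw [if_pos h, if_pos (by omega)]
        have h3 : ((N : ℝ) + k - l) = n := by
          rw [h]; push_cast [Nat.cast_sub hn]; ring
        rw [h3]; ring
      · rw [if_neg h, if_neg (by omega), mul_zero]
    · have hk' := Finset.mem_range.1 hk
      have hl' := Finset.mem_range.1 hl
      rw [abs_lt]
      constructor <;> omega
  rw [Finset.sum_congr rfl h2]
  have h3 : ∀ k ∈ range A, ∑ l ∈ range A, (if l = k + (N - n) then (G : ℂ) * e (n * x) else 0) =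
      if k < A - (N - n) then (G : ℂ) * e (n * x) else 0 := by
    intro k hk
    rw [Finset.sum_ite_eq']
    have hk' := Finset.mem_range.1 hk
    by_cases h : k < A - (N - n)
    · rw [if_pos h, if_pos (Finset.mem_range.2 (by omega))]
    · rw [if_neg h, if_neg (by rw [Finset.mem_range]; omega)]
  rw [Finset.sum_congr rfl h3, ← Finset.sum_filter, Finset.sum_const, nsmul_eq_mul]
  have h4 : (range A).filter (fun k => k < A - (N - n)) = range (A - (N - n)) := by
    ext k; simp only [Finset.mem_filter, Finset.mem_range]; omega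
  rw [h4, Finset.card_range]
  ring

/-- the mean of the kernel -/
private lemma TT_mean (G A : ℕ) (hG : 1 ≤ G) (hA : A ≤ G) (x : ℝ) :
    ∑ j ∈ range G, TT A (x - (j : ℝ) / G) = (G : ℂ) * (A : ℂ) := by
  have h1 : ∀ j ∈ range G, TT A (x - (j : ℝ) / G) =
      ∑ k ∈ range A, ∑ l ∈ range A, e (((k : ℝ) - l) * x) * e (((l : ℤ) - k : ℤ) * ((j : ℝ) / G)) := by
    intro j _
    unfold TT
    refine Finset.sum_congr rfl fun k _ => Finset.sum_congr rfl fun l _ => ?_
    rw [← e_add]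
    congr 1
    push_cast
    ring
  rw [Finset.sum_congr rfl h1, Finset.sum_comm]
  have h2 : ∀ k ∈ range A, ∑ j ∈ range G, ∑ l ∈ range A, e (((k : ℝ) - l) * x) *
        e (((l : ℤ) - k : ℤ) * ((j : ℝ) / G)) = (G : ℂ) := by
    intro k hk
    rw [Finset.sum_comm]
    have h3 : ∀ l ∈ range A, ∑ j ∈ range G, e (((k : ℝ) - l) * x) * e (((l : ℤ) - k : ℤ) * ((j : ℝ) / G)) =
        if l = k then (G : ℂ) else 0 := by
      intro l hl
      have hk' := Finset.mem_range.1 hk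
      have hl' := Finset.mem_range.1 hl
      rw [← Finset.mul_sum, d2_orth G hG]
      · by_cases h : l = k
        · rw [if_pos h, if_pos (by omega), h, sub_self, zero_mul, e_zero, one_mul]
        · rw [if_neg h, if_neg (by omega), mul_zero]
      · rw [abs_lt]
        constructor <;> omega
    rw [Finset.sum_congr rfl h3, Finset.sum_ite_eq', if_pos hk]
  rw [Finset.sum_congr rfl h2, Finset.sum_const, Finset.card_range, nsmul_eq_mul]
  ring

theorem bern (N G : ℕ) (hN : 1 ≤ N) (c : ℕ → ℂ) (M : ℝ) (hG : 8 * N ≤ G)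
    (h : ∀ j < G, ‖∑ n ∈ Icc 1 N, c n * e (n * ((j : ℝ) / G))‖ ≤ M) (x : ℝ) :
    ‖∑ n ∈ Icc 1 N, c n * e (n * x)‖ ≤ (1 + 8 * (N : ℝ) / G) * M := by
  have hG1 : 1 ≤ G := by omega
  have hM : 0 ≤ M := (norm_nonneg _).trans (h 0 (by omega))
  have hGr : (0 : ℝ) < G := by exact_mod_cast hG1
  set F : ℝ → ℂ := fun y => ∑ n ∈ Icc 1 N, c n * e (n * y) with hF
  have key : ∀ A : ℕ, A + N ≤ G → N ≤ A →
      ∑ j ∈ range G, F ((j : ℝ) / G) * (e (N * (x - (j : ℝ) / G)) * TT A (x - (j : ℝ) / G)) =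
        ∑ n ∈ Icc 1 N, c n * ((G : ℂ) * ((A - (N - n) : ℕ) : ℂ) * e (n * x)) := by
    intro A hA hAN
    simp only [hF]
    simp only [Finset.sum_mul]
    rw [Finset.sum_comm]
    refine Finset.sum_congr rfl fun n hn => ?_
    obtain ⟨hn1, hn2⟩ := Finset.mem_Icc.1 hn
    rw [← TT_coef G N A n hG1 hA hn1 hn2 hAN x, Finset.mul_sum]
    refine Finset.sum_congr rfl fun j _ => ?_
    ring
  have k1 := key (G - N) (by omega) (by omega)
  have k2 := key N (by omega) le_rfl
  have k3 : ∑ j ∈ range G, F ((j : ℝ) / G) * (e (N * (x - (j : ℝ) / G)) *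
      (TT (G - N) (x - (j : ℝ) / G) - TT N (x - (j : ℝ) / G))) = (G : ℂ) * ((G - 2 * N : ℕ) : ℂ) * F x := by
    have : ∀ j ∈ range G, F ((j : ℝ) / G) * (e (N * (x - (j : ℝ) / G)) *
        (TT (G - N) (x - (j : ℝ) / G) - TT N (x - (j : ℝ) / G))) =
        F ((j : ℝ) / G) * (e (N * (x - (j : ℝ) / G)) * TT (G - N) (x - (j : ℝ) / G)) -
        F ((j : ℝ) / G) * (e (N * (x - (j : ℝ) / G)) * TT N (x - (j : ℝ) / G)) := by
      intro j _; ring
    rw [Finset.sum_congr rfl this, Finset.sum_sub_distrib, k1, k2, ← Finset.sum_sub_distrib, hF]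
    simp only [Finset.mul_sum]
    refine Finset.sum_congr rfl fun n hn => ?_
    obtain ⟨hn1, hn2⟩ := Finset.mem_Icc.1 hn
    have h5 : ((G - N - (N - n) : ℕ) : ℂ) = ((G - 2 * N : ℕ) : ℂ) + ((N - (N - n) : ℕ) : ℂ) := by
      rw [← Nat.cast_add]; congr 1; omega
    rw [h5]; ring
  have k4 : (G : ℝ) * ((G - 2 * N : ℕ) : ℝ) * ‖F x‖ ≤ M * (G * G) := by
    have h6 : ‖(G : ℂ) * ((G - 2 * N : ℕ) : ℂ) * F x‖ = (G : ℝ) * ((G - 2 * N : ℕ) : ℝ) * ‖F x‖ := by
      rw [norm_mul, norm_mul, Complex.norm_natCast, Complex.norm_natCast]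
    rw [← h6, ← k3]
    refine (norm_sum_le _ _).trans ?_
    have h7 : ∀ j ∈ range G, ‖F ((j : ℝ) / G) * (e (N * (x - (j : ℝ) / G)) *
        (TT (G - N) (x - (j : ℝ) / G) - TT N (x - (j : ℝ) / G)))‖ ≤
        M * ((‖∑ k ∈ range (G - N), e (k * (x - (j : ℝ) / G))‖ ^ 2) + (‖∑ k ∈ range N, e (k * (x - (j : ℝ) / G))‖ ^ 2)) := by
      intro j hj
      rw [norm_mul, norm_mul, norm_e, one_mul]
      refine mul_le_mul (h j (Finset.mem_range.1 hj)) ?_ (norm_nonneg _) hM
      refine (norm_sub_le _ _).trans (le_of_eq ?_)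
      rw [TT_eq, TT_eq, Complex.norm_real, Complex.norm_real, Real.norm_of_nonneg (by positivity),
        Real.norm_of_nonneg (by positivity)]
    refine (Finset.sum_le_sum h7).trans ?_
    rw [← Finset.mul_sum, Finset.sum_add_distrib]
    refine mul_le_mul_of_nonneg_left (le_of_eq ?_) hM
    have h8 : ∀ A : ℕ, A ≤ G → ∑ j ∈ range G, ‖∑ k ∈ range A, e (k * (x - (j : ℝ) / G))‖ ^ 2 = (G : ℝ) * A := by
      intro A hA
      have h9 := TT_mean G A hG1 hA x
      have h10 : ∀ j ∈ range G, TT A (x - (j : ℝ) / G) =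
          ((‖∑ k ∈ range A, e (k * (x - (j : ℝ) / G))‖ ^ 2 : ℝ) : ℂ) := fun j _ => TT_eq A _
      rw [Finset.sum_congr rfl h10, ← Complex.ofReal_sum] at h9
      exact_mod_cast h9
    rw [h8 _ (by omega), h8 _ (by omega), Nat.cast_sub (by omega)]
    ring
  have k5 : ((G - 2 * N : ℕ) : ℝ) = (G : ℝ) - 2 * N := by
    rw [Nat.cast_sub (by omega)]; push_cast; ring
  rw [k5] at k4
  have hGN : 8 * (N : ℝ) ≤ G := by exact_mod_cast hG
  have hNr : (1 : ℝ) ≤ N := by exact_mod_cast hN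
  have k6 : ((G : ℝ) - 2 * N) * ‖F x‖ ≤ M * G := by
    have : (G : ℝ) * (((G : ℝ) - 2 * N) * ‖F x‖) ≤ G * (M * G) := by linarith
    exact le_of_mul_le_mul_left this hGr
  have k7 : 0 < (G : ℝ) - 2 * N := by linarith
  have k8 : M * G ≤ ((G : ℝ) - 2 * N) * ((1 + 8 * (N : ℝ) / G) * M) := by
    have h9 : ((G : ℝ) - 2 * N) * (1 + 8 * (N : ℝ) / G) = G + (6 * G - 16 * N) * N / G := by
      field_simp
      ring
    have h10 : (0 : ℝ) ≤ (6 * G - 16 * N) * N / G := by
      apply div_nonneg _ hGr.le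
      apply mul_nonneg _ (by linarith)
      linarith
    calc M * G ≤ M * (G + (6 * G - 16 * N) * N / G) := mul_le_mul_of_nonneg_left (by linarith) hM
      _ = _ := by rw [← h9]; ring
  exact le_of_mul_le_mul_left (k6.trans k8) k7

end Pool.Agent.Helper51.EA
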