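import Pool.Agent.Helper51.EA.Defs
import Pool.Agent.Helper5.RS.GoodB

/-!
# Block EA-C5: the good event with `v = Λ^(2 - 1/200)`

Pairs with `q tj ≤ Λ^(1/2)`: Markov with the mean of `VS` (`≤ 82 LL Y ≤ 246 Λ`), times `1 ≤ Λ^(1/2)/(q tj)`. The others: Chebyshev with `var_VQ2`
(hypothesis `VarVQ2`), `(q tj)^(-21/20) ≤ Λ^(-1/40)/(q tj)`. Sum over `q`, `j` with `div_pow_sum`, `int_sum`.
-/

set_option autoImplicit false

namespace Pool.Agent.Helper51.EA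

open Finset Pool.Agent.Helper5.RM Pool.Agent.Helper5.RS

/-- statement of `var_VQ2` -/
def VarVQ2 : Prop := ∃ C : ℝ, 0 < C ∧ ∀ (S : Finset ℕ) (z Y R q : ℕ) (j : ℤ) (ρ : ℕ), PP Y ⊆ S → 1 ≤ q → 1 ≤ Y →
    1 ≤ R → ρ ≤ R → 2 * |(j : ℝ)| * Y ≤ R →
    av S (fun T => (VQ z Y R q j ρ T - mQ z Y R ρ) ^ 2) ≤
      C * (q.divisors.card : ℝ) ^ 9 * LL Y ^ 2 * (4 + Real.log (tj j)) *
        (LL Y ^ 2 * (q * tj j) ^ (-(21 / 20) : ℝ) + LL Y / (q * tj j))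

/-- orthogonality -/
private lemma av_rf_ne {S : Finset ℕ} {m n : ℕ} (hm : Squarefree m) (hn : Squarefree n) (hmS : m.primeFactors ⊆ S)
    (hnS : n.primeFactors ⊆ S) (hne : m ≠ n) : av S (fun T => rf T m * rf T n) = 0 := by
  have h1 : av S (fun T => rf T m * rf T n) = av S (fun T => wal T (symmDiff m.primeFactors n.primeFactors)) :=
    av_congr fun T _ => by rw [rf_sqf hm, rf_sqf hn, wal_symmDiff]
  rw [h1]
  refine av_wal ?_ ?_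
  · intro p hp
    rw [Finset.mem_symmDiff] at hp
    rcases hp with h | h
    · exact hmS h.1
    · exact hnS h.1
  · rw [Finset.nonempty_iff_ne_empty]
    intro h
    have h2 : m.primeFactors = n.primeFactors := by
      have := symmDiff_eq_bot.1 (show symmDiff m.primeFactors n.primeFactors = ⊥ from h)
      exact this
    apply hne
    rw [← Nat.prod_primeFactors_of_squarefree hm, ← Nat.prod_primeFactors_of_squarefree hn, h2]

private lemma av_VQ (S : Finset ℕ) (z Y R q : ℕ) (j : ℤ) (ρ : ℕ) (hS : PP Y ⊆ S) (hq : 1 ≤ q) (hR : 1 ≤ R)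
    (hρ : ρ ≤ R) : av S (fun T => VQ z Y R q j ρ T) = mQ z Y R ρ := by
  classical
  have h1 : ∀ T, VQ z Y R q j ρ T = mQ z Y R ρ + ∑ p ∈ (Sm z Y ×ˢ Sm z Y).filter (fun p => p.1 ≠ p.2),
      (kap R q j ρ p.1 p.2).re * (rf T p.1 * rf T p.2) := by
    intro T
    have h2 := VQ_expand z Y R q j ρ T hq hR hρ
    have h3 := congrArg Complex.re h2
    rw [Complex.ofReal_re, Complex.re_sum] at h3
    have h4 : ∀ p ∈ (Sm z Y ×ˢ Sm z Y).filter (fun p => p.1 ≠ p.2),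
        ((rf T p.1 : ℂ) * (rf T p.2 : ℂ) * kap R q j ρ p.1 p.2).re =
          (kap R q j ρ p.1 p.2).re * (rf T p.1 * rf T p.2) := by
      intro p _
      rw [← Complex.ofReal_mul, Complex.re_ofReal_mul]
      ring
    rw [Finset.sum_congr rfl h4] at h3
    linarith
  have h5 : av S (fun T => VQ z Y R q j ρ T) = av S (fun T => mQ z Y R ρ +
      ∑ p ∈ (Sm z Y ×ˢ Sm z Y).filter (fun p => p.1 ≠ p.2), (kap R q j ρ p.1 p.2).re * (rf T p.1 * rf T p.2)) :=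
    av_congr fun T _ => h1 T
  rw [h5, av_add, av_const, av_sum]
  have h6 : ∀ p ∈ (Sm z Y ×ˢ Sm z Y).filter (fun p => p.1 ≠ p.2),
      av S (fun T => (kap R q j ρ p.1 p.2).re * (rf T p.1 * rf T p.2)) = 0 := by
    intro p hp
    rw [Finset.mem_filter, Finset.mem_product] at hp
    obtain ⟨⟨hp1, hp2⟩, hne⟩ := hp
    unfold Sm at hp1 hp2
    rw [Finset.mem_filter, Finset.mem_Icc] at hp1 hp2
    rw [av_mul_left, av_rf_ne hp1.2.1 hp2.2.1 ((primeFactors_subset_PP hp1.1.2).trans hS)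
      ((primeFactors_subset_PP hp2.1.2).trans hS) hne, mul_zero]
  rw [Finset.sum_congr rfl h6, Finset.sum_const_zero, add_zero]

private lemma pi16 : 8 * Real.pi ^ 2 ≤ 80 := by
  have h1 := Real.pi_lt_d2
  nlinarith [Real.pi_pos]

private lemma cs16 (K a x : ℝ) (hK : 0 < K) : (2 * a + x) ^ 2 ≤ (2 + K) * (2 * a ^ 2 + x ^ 2 / K) := by
  have h : 0 ≤ 2 * (x - K * a) ^ 2 / K := by positivity
  have e1 : (2 + K) * (2 * a ^ 2 + x ^ 2 / K) - (2 * a + x) ^ 2 = 2 * (x - K * a) ^ 2 / K := by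
    field_simp
    ring
  linarith

private lemma av_VS (S : Finset ℕ) (z Y R Rs q : ℕ) (j : ℤ) (hS : PP Y ⊆ S) (hY : 1 ≤ Y) (hq : 1 ≤ q) (hR : 1 ≤ R)
    (hRs : 1 ≤ Rs) : av S (fun T => VS z Y R Rs q j T) ≤ 82 * LL Y := by
  have hLY : 1 ≤ LL Y := by
    unfold LL
    have : 0 ≤ Real.log Y := Real.log_natCast_nonneg Y
    linarith
  have hρ : ∀ s ∈ Finset.Ico 1 Rs, s * (R / Rs) ≤ R := by
    intro s hs
    have := (Finset.mem_Ico.mp hs).2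
    calc s * (R / Rs) ≤ Rs * (R / Rs) := Nat.mul_le_mul_right _ this.le
      _ ≤ R := Nat.mul_div_le R Rs
  have hRs0 : (0 : ℝ) < Rs := by exact_mod_cast hRs
  obtain ⟨c, hc⟩ : ∃ c : ℝ, c = 8 * Real.pi ^ 2 / Rs := ⟨_, rfl⟩
  have hc0 : 0 ≤ c := by rw [hc]; positivity
  have hcn : c * ((Finset.Ico 1 Rs).card : ℝ) ≤ 80 := by
    have h1 : ((Finset.Ico 1 Rs).card : ℝ) ≤ Rs := by
      rw [Nat.card_Ico]
      exact_mod_cast Nat.sub_le Rs 1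
    calc c * ((Finset.Ico 1 Rs).card : ℝ) ≤ c * Rs := mul_le_mul_of_nonneg_left h1 hc0
      _ = 8 * Real.pi ^ 2 := by rw [hc]; field_simp
      _ ≤ 80 := pi16
  have e1 : av S (fun T => VS z Y R Rs q j T) = 2 * mQ z Y R R +
      c * ∑ s ∈ Finset.Ico 1 Rs, mQ z Y R (s * (R / Rs)) := by
    unfold VS
    rw [av_add, av_mul_left, av_VQ S z Y R q j R hS hq hR le_rfl]
    have e2 : av S (fun T => 8 * Real.pi ^ 2 / Rs * ∑ s ∈ Finset.Ico 1 Rs, VQ z Y R q j (s * (R / Rs)) T) =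
        c * ∑ s ∈ Finset.Ico 1 Rs, mQ z Y R (s * (R / Rs)) := by
      rw [av_mul_left, av_sum, ← hc]
      congr 1
      exact Finset.sum_congr rfl fun s hs => av_VQ S z Y R q j _ hS hq hR (hρ s hs)
    rw [e2]
  rw [e1]
  have h1 := (mQ_le z Y R R hY hR le_rfl).2
  have h2 : ∑ s ∈ Finset.Ico 1 Rs, mQ z Y R (s * (R / Rs)) ≤ ((Finset.Ico 1 Rs).card : ℝ) * LL Y := by
    rw [← nsmul_eq_mul]
    exact Finset.sum_le_card_nsmul _ _ _ fun s hs => (mQ_le z Y R _ hY hR (hρ s hs)).2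
  have h3 := mul_le_mul_of_nonneg_left h2 hc0
  have h4 := mul_le_mul_of_nonneg_right hcn (by linarith : (0 : ℝ) ≤ LL Y)
  nlinarith

private lemma VS_nonneg (z Y R Rs q : ℕ) (j : ℤ) (T : Finset ℕ) : 0 ≤ VS z Y R Rs q j T := by
  unfold VS VQ
  positivity

/-- Markov -/
private lemma sA (S : Finset ℕ) (z Y R Rs q : ℕ) (j : ℤ) (v : ℝ) (hv : 0 < v) (hS : PP Y ⊆ S) (hY : 1 ≤ Y) (hq : 1 ≤ q)
    (hR : 1 ≤ R) (hRs : 1 ≤ Rs) : pr S (fun T => v < VS z Y R Rs q j T) ≤ 82 * LL Y / v := by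
  refine (pr_mono fun T _ h => le_of_lt h).trans ?_
  exact markov (fun T _ => VS_nonneg z Y R Rs q j T) hv (av_VS S z Y R Rs q j hS hY hq hR hRs)

/-- Chebyshev -/
private lemma sB (S : Finset ℕ) (z Y R Rs q : ℕ) (j : ℤ) (v V : ℝ) (hV0 : 0 ≤ V) (hY : 1 ≤ Y)
    (hR : 1 ≤ R) (hRs : 1 ≤ Rs) (hv : 164 * LL Y ≤ v)
    (hV : ∀ ρ ≤ R, av S (fun T => (VQ z Y R q j ρ T - mQ z Y R ρ) ^ 2) ≤ V) :
    pr S (fun T => v < VS z Y R Rs q j T) ≤ 82 ^ 2 * V / (v ^ 2 / 4) := by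
  have hLY : 1 ≤ LL Y := by
    unfold LL
    have : 0 ≤ Real.log Y := Real.log_natCast_nonneg Y
    linarith
  have hv0 : 0 < v := by linarith
  have hρ : ∀ s ∈ Finset.Ico 1 Rs, s * (R / Rs) ≤ R := by
    intro s hs
    have := (Finset.mem_Ico.mp hs).2
    calc s * (R / Rs) ≤ Rs * (R / Rs) := Nat.mul_le_mul_right _ this.le
      _ ≤ R := Nat.mul_div_le R Rs
  have hRs0 : (0 : ℝ) < Rs := by exact_mod_cast hRs
  obtain ⟨c, hc⟩ : ∃ c : ℝ, c = 8 * Real.pi ^ 2 / Rs := ⟨_, rfl⟩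
  have hc0 : 0 ≤ c := by rw [hc]; positivity
  have hcn : c * ((Finset.Ico 1 Rs).card : ℝ) ≤ 80 := by
    have h1 : ((Finset.Ico 1 Rs).card : ℝ) ≤ Rs := by
      rw [Nat.card_Ico]
      exact_mod_cast Nat.sub_le Rs 1
    calc c * ((Finset.Ico 1 Rs).card : ℝ) ≤ c * Rs := mul_le_mul_of_nonneg_left h1 hc0
      _ = 8 * Real.pi ^ 2 := by rw [hc]; field_simp
      _ ≤ 80 := pi16
  obtain ⟨E, hE⟩ : ∃ E : ℝ, E = 2 * mQ z Y R R +
      c * ∑ s ∈ Finset.Ico 1 Rs, mQ z Y R (s * (R / Rs)) := ⟨_, rfl⟩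
  have hEle : E ≤ 82 * LL Y := by
    have h1 := (mQ_le z Y R R hY hR le_rfl).2
    have h2 : ∑ s ∈ Finset.Ico 1 Rs, mQ z Y R (s * (R / Rs)) ≤
        ((Finset.Ico 1 Rs).card : ℝ) * LL Y := by
      rw [← nsmul_eq_mul]
      exact Finset.sum_le_card_nsmul _ _ _ fun s hs => (mQ_le z Y R _ hY hR (hρ s hs)).2
    have h3 := mul_le_mul_of_nonneg_left h2 hc0
    have h4 := mul_le_mul_of_nonneg_right hcn (by linarith : (0 : ℝ) ≤ LL Y)
    rw [hE]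
    nlinarith
  have hpt : ∀ T : Finset ℕ, (VS z Y R Rs q j T - E) ^ 2 ≤
      82 * (2 * (VQ z Y R q j R T - mQ z Y R R) ^ 2 +
        c * ∑ s ∈ Finset.Ico 1 Rs,
          (VQ z Y R q j (s * (R / Rs)) T - mQ z Y R (s * (R / Rs))) ^ 2) := by
    intro T
    obtain ⟨a, ha⟩ : ∃ a : ℝ, a = VQ z Y R q j R T - mQ z Y R R := ⟨_, rfl⟩
    obtain ⟨D, hD⟩ : ∃ D : ℕ → ℝ, D = fun s =>
      VQ z Y R q j (s * (R / Rs)) T - mQ z Y R (s * (R / Rs)) := ⟨_, rfl⟩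
    have e1 : VS z Y R Rs q j T - E = 2 * a + c * ∑ s ∈ Finset.Ico 1 Rs, D s := by
      rw [ha, hD, Finset.sum_sub_distrib, hE, VS, ← hc]
      ring
    have e2 : ∑ s ∈ Finset.Ico 1 Rs,
        (VQ z Y R q j (s * (R / Rs)) T - mQ z Y R (s * (R / Rs))) ^ 2 =
        ∑ s ∈ Finset.Ico 1 Rs, D s ^ 2 := by rw [hD]
    rw [e1, e2, ← ha]
    have h1 := cs16 80 a (c * ∑ s ∈ Finset.Ico 1 Rs, D s) (by norm_num)
    have h2 : (∑ s ∈ Finset.Ico 1 Rs, D s) ^ 2 ≤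
        ((Finset.Ico 1 Rs).card : ℝ) * ∑ s ∈ Finset.Ico 1 Rs, D s ^ 2 := sq_sum_le_card_mul_sum_sq
    have h3 : (0 : ℝ) ≤ ∑ s ∈ Finset.Ico 1 Rs, D s ^ 2 := Finset.sum_nonneg fun s _ => sq_nonneg _
    have h4 : (c * ∑ s ∈ Finset.Ico 1 Rs, D s) ^ 2 / 80 ≤
        c * ∑ s ∈ Finset.Ico 1 Rs, D s ^ 2 := by
      rw [div_le_iff₀ (by norm_num)]
      calc (c * ∑ s ∈ Finset.Ico 1 Rs, D s) ^ 2
          = c ^ 2 * (∑ s ∈ Finset.Ico 1 Rs, D s) ^ 2 := by ring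
        _ ≤ c ^ 2 * (((Finset.Ico 1 Rs).card : ℝ) * ∑ s ∈ Finset.Ico 1 Rs, D s ^ 2) :=
            mul_le_mul_of_nonneg_left h2 (sq_nonneg c)
        _ = (c * ((Finset.Ico 1 Rs).card : ℝ)) * (c * ∑ s ∈ Finset.Ico 1 Rs, D s ^ 2) := by ring
        _ ≤ 80 * (c * ∑ s ∈ Finset.Ico 1 Rs, D s ^ 2) :=
            mul_le_mul_of_nonneg_right hcn (mul_nonneg hc0 h3)
        _ = c * (∑ s ∈ Finset.Ico 1 Rs, D s ^ 2) * 80 := by ring
    linarith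
  have hav : av S (fun T => (VS z Y R Rs q j T - E) ^ 2) ≤ 82 ^ 2 * V := by
    refine (av_mono fun T _ => hpt T).trans ?_
    rw [av_mul_left, av_add, av_mul_left, av_mul_left, av_sum]
    have h1 := hV R le_rfl
    have h2 : ∑ s ∈ Finset.Ico 1 Rs, av S (fun T =>
        (VQ z Y R q j (s * (R / Rs)) T - mQ z Y R (s * (R / Rs))) ^ 2) ≤
        ((Finset.Ico 1 Rs).card : ℝ) * V := by
      rw [← nsmul_eq_mul]
      refine Finset.sum_le_card_nsmul _ _ _ fun s hs => ?_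
      exact hV _ (hρ s hs)
    have h3 := mul_le_mul_of_nonneg_left h2 hc0
    have h4 := mul_le_mul_of_nonneg_right hcn hV0
    nlinarith
  have hmk := markov (S := S) (F := fun T => (VS z Y R Rs q j T - E) ^ 2) (c := v ^ 2 / 4)
    (fun T _ => sq_nonneg _) (by positivity) hav
  refine (pr_mono ?_).trans hmk
  intro T _ hT
  have h1 : v / 2 ≤ VS z Y R Rs q j T - E := by linarith
  have h2 : (v / 2) ^ 2 ≤ (VS z Y R Rs q j T - E) ^ 2 := pow_le_pow_left₀ (by linarith) h1 2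
  calc v ^ 2 / 4 = (v / 2) ^ 2 := by ring
    _ ≤ _ := h2

/-- one pair `(q, j)` -/
private lemma sAB (C L : ℝ) (hC : 0 < C) (hL : 512 ≤ L) (S : Finset ℕ) (z Y R Rs q J : ℕ) (j : ℤ)
    (hHV : ∀ (ρ : ℕ), ρ ≤ R → av S (fun T => (VQ z Y R q j ρ T - mQ z Y R ρ) ^ 2) ≤
      C * (q.divisors.card : ℝ) ^ 9 * LL Y ^ 2 * (4 + Real.log (tj j)) *
        (LL Y ^ 2 * (q * tj j) ^ (-(21 / 20) : ℝ) + LL Y / (q * tj j)))
    (hS : PP Y ⊆ S) (hY : 1 ≤ Y) (hR : 1 ≤ R) (hRs : 1 ≤ Rs) (hq : 1 ≤ q) (hLY : LL Y ≤ 3 * L)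
    (hv : 164 * LL Y ≤ L ^ (2 - 1 / 200 : ℝ)) :
    pr S (fun T => L ^ (2 - 1 / 200 : ℝ) < VS z Y R Rs q j T) ≤
      (246 + 82 ^ 2 * 4 * 108 * C) * L ^ (-(3 / 200) : ℝ) *
        (((q.divisors.card : ℝ) ^ 9 / q) * ((4 + Real.log (tj j)) / tj j)) := by
  have hL0 : 0 < L := by linarith
  have hL1 : 1 ≤ L := by linarith
  have htj : 1 ≤ tj j := le_max_left _ _
  have htj0 : 0 < tj j := by linarith
  have hlt : 0 ≤ Real.log (tj j) := Real.log_nonneg htj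
  have hq0 : (0 : ℝ) < q := by exact_mod_cast hq
  have hq1 : (1 : ℝ) ≤ q := by exact_mod_cast hq
  have hd1 : (1 : ℝ) ≤ (q.divisors.card : ℝ) := by
    have : 1 ≤ q.divisors.card := Finset.card_pos.2 ⟨1, Nat.one_mem_divisors.2 (by omega)⟩
    exact_mod_cast this
  have hd9 : (1 : ℝ) ≤ (q.divisors.card : ℝ) ^ 9 := one_le_pow₀ hd1
  have hLY1 : 1 ≤ LL Y := by
    unfold LL
    have : 0 ≤ Real.log Y := Real.log_natCast_nonneg Y
    linarith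
  have hv0 : 0 < L ^ (2 - 1 / 200 : ℝ) := Real.rpow_pos_of_pos hL0 _
  obtain ⟨x, hx⟩ : ∃ x : ℝ, x = q * tj j := ⟨_, rfl⟩
  have hx0 : 0 < x := by rw [hx]; positivity
  obtain ⟨w, hw⟩ : ∃ w : ℝ, w = (q.divisors.card : ℝ) ^ 9 * (4 + Real.log (tj j)) := ⟨_, rfl⟩
  have hw1 : 1 ≤ w := by rw [hw]; nlinarith
  have hform : ((q.divisors.card : ℝ) ^ 9 / q) * ((4 + Real.log (tj j)) / tj j) = w / x := by
    rw [hw, hx]; field_simp
  rw [hform]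
  have hP : 0 < L ^ (-(3 / 200) : ℝ) := Real.rpow_pos_of_pos hL0 _
  rcases le_or_gt x (L ^ (1 / 2 : ℝ)) with h | h
  · -- Markov
    refine (sA S z Y R Rs q j _ hv0 hS hY hq hR hRs).trans ?_
    have h1 : 82 * LL Y / L ^ (2 - 1 / 200 : ℝ) ≤ 246 * (L / L ^ (2 - 1 / 200 : ℝ)) := by
      rw [mul_div_assoc']
      apply div_le_div_of_nonneg_right _ hv0.le
      linarith
    have h2 : L / L ^ (2 - 1 / 200 : ℝ) ≤ L ^ (-(3 / 200) : ℝ) * (1 / x) := by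
      have h3 : L / L ^ (2 - 1 / 200 : ℝ) = L ^ (1 - (2 - 1 / 200) : ℝ) := by
        rw [Real.rpow_sub hL0 1 (2 - 1 / 200), Real.rpow_one]
      have h4 : L ^ (-(1 / 2) : ℝ) ≤ 1 / x := by
        rw [Real.rpow_neg hL0.le, ← one_div]
        exact one_div_le_one_div_of_le hx0 h
      rw [h3]
      calc L ^ (1 - (2 - 1 / 200) : ℝ) ≤ L ^ (-(3 / 200) + -(1 / 2) : ℝ) :=
            Real.rpow_le_rpow_of_exponent_le hL1 (by norm_num)
        _ = L ^ (-(3 / 200) : ℝ) * L ^ (-(1 / 2) : ℝ) := Real.rpow_add hL0 _ _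
        _ ≤ _ := mul_le_mul_of_nonneg_left h4 hP.le
    calc 82 * LL Y / L ^ (2 - 1 / 200 : ℝ) ≤ 246 * (L / L ^ (2 - 1 / 200 : ℝ)) := h1
      _ ≤ 246 * (L ^ (-(3 / 200) : ℝ) * (1 / x)) := by linarith
      _ ≤ (246 + 82 ^ 2 * 4 * 108 * C) * (L ^ (-(3 / 200) : ℝ) * (w / x)) := by
          have h5 : L ^ (-(3 / 200) : ℝ) * (1 / x) ≤ L ^ (-(3 / 200) : ℝ) * (w / x) := by
            apply mul_le_mul_of_nonneg_left _ hP.le
            exact div_le_div_of_nonneg_right hw1 hx0.le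
          have h6 : 0 ≤ L ^ (-(3 / 200) : ℝ) * (1 / x) := by positivity
          have h7 : 0 ≤ 82 ^ 2 * 4 * 108 * C := by positivity
          nlinarith
      _ = _ := by ring
  · -- Chebyshev
    have hV0 : 0 ≤ C * (q.divisors.card : ℝ) ^ 9 * LL Y ^ 2 * (4 + Real.log (tj j)) *
        (LL Y ^ 2 * (q * tj j) ^ (-(21 / 20) : ℝ) + LL Y / (q * tj j)) := by positivity
    refine (sB S z Y R Rs q j _ _ hV0 hY hR hRs hv hHV).trans ?_
    rw [← hx]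
    have h1 : C * (q.divisors.card : ℝ) ^ 9 * LL Y ^ 2 * (4 + Real.log (tj j)) *
        (LL Y ^ 2 * x ^ (-(21 / 20) : ℝ) + LL Y / x) ≤ C * w * (108 * L ^ (4 - 1 / 40 : ℝ)) / x := by
      have h2 : x ^ (-(21 / 20) : ℝ) ≤ L ^ (-(1 / 40) : ℝ) / x := by
        have h3 : x ^ (-(21 / 20) : ℝ) = x ^ (-(1 / 20) : ℝ) * x⁻¹ := by
          rw [← Real.rpow_neg_one x, ← Real.rpow_add hx0]; norm_num
        have h4 : x ^ (-(1 / 20) : ℝ) ≤ L ^ (-(1 / 40) : ℝ) := by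
          have h5 : (L ^ (1 / 2 : ℝ)) ^ (-(1 / 20) : ℝ) = L ^ (-(1 / 40) : ℝ) := by
            rw [← Real.rpow_mul hL0.le]; norm_num
          rw [← h5]
          exact Real.rpow_le_rpow_of_nonpos (Real.rpow_pos_of_pos hL0 _) h.le (by norm_num)
        rw [h3, div_eq_mul_inv]
        exact mul_le_mul_of_nonneg_right h4 (by positivity)
      have h5 : LL Y ^ 2 * x ^ (-(21 / 20) : ℝ) + LL Y / x ≤ (9 * L ^ (2 - 1 / 40 : ℝ) + 3 * L) / x := by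
        have h6 : LL Y ^ 2 ≤ 9 * L ^ 2 := by nlinarith
        have h7 : L ^ (2 - 1 / 40 : ℝ) = L ^ 2 * L ^ (-(1 / 40) : ℝ) := by
          rw [show (2 - 1 / 40 : ℝ) = 2 + -(1 / 40) by norm_num, Real.rpow_add hL0, Real.rpow_two]
        have h8 : 0 < L ^ (-(1 / 40) : ℝ) := Real.rpow_pos_of_pos hL0 _
        calc LL Y ^ 2 * x ^ (-(21 / 20) : ℝ) + LL Y / x
            ≤ 9 * L ^ 2 * (L ^ (-(1 / 40) : ℝ) / x) + 3 * L / x := by
              apply add_le_add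
              · exact mul_le_mul h6 h2 (Real.rpow_nonneg hx0.le _) (by positivity)
              · exact div_le_div_of_nonneg_right hLY hx0.le
          _ = _ := by rw [h7]; ring
      have h9 : L ≤ L ^ (2 - 1 / 40 : ℝ) := by
        calc L = L ^ (1 : ℝ) := (Real.rpow_one L).symm
          _ ≤ _ := Real.rpow_le_rpow_of_exponent_le hL1 (by norm_num)
      have h10 : (9 * L ^ (2 - 1 / 40 : ℝ) + 3 * L) / x ≤ 12 * L ^ (2 - 1 / 40 : ℝ) / x := by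
        apply div_le_div_of_nonneg_right _ hx0.le
        linarith
      have h11 : LL Y ^ 2 ≤ 9 * L ^ 2 := by nlinarith
      have h12 : L ^ (4 - 1 / 40 : ℝ) = L ^ 2 * L ^ (2 - 1 / 40 : ℝ) := by
        rw [show (4 - 1 / 40 : ℝ) = 2 + (2 - 1 / 40) by norm_num, Real.rpow_add hL0, Real.rpow_two]
      have h13 : 0 < L ^ (2 - 1 / 40 : ℝ) := Real.rpow_pos_of_pos hL0 _
      calc C * (q.divisors.card : ℝ) ^ 9 * LL Y ^ 2 * (4 + Real.log (tj j)) *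
          (LL Y ^ 2 * x ^ (-(21 / 20) : ℝ) + LL Y / x)
          = (C * w * LL Y ^ 2) * (LL Y ^ 2 * x ^ (-(21 / 20) : ℝ) + LL Y / x) := by rw [hw]; ring
        _ ≤ (C * w * (9 * L ^ 2)) * (12 * L ^ (2 - 1 / 40 : ℝ) / x) := by
            apply mul_le_mul
            · apply mul_le_mul_of_nonneg_left h11
              positivity
            · exact h5.trans h10
            · positivity
            · positivity
        _ = C * w * (108 * L ^ (4 - 1 / 40 : ℝ)) / x := by rw [h12]; ring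
    have hsq : (L ^ (2 - 1 / 200 : ℝ)) ^ 2 = L ^ (4 - 1 / 100 : ℝ) := by
      rw [← Real.rpow_natCast, ← Real.rpow_mul hL0.le]; norm_num
    have h14 : L ^ (4 - 1 / 40 : ℝ) = L ^ (-(3 / 200) : ℝ) * L ^ (4 - 1 / 100 : ℝ) := by
      rw [← Real.rpow_add hL0]; norm_num
    have h15 : 0 < L ^ (4 - 1 / 100 : ℝ) := Real.rpow_pos_of_pos hL0 _
    calc 82 ^ 2 * (C * (q.divisors.card : ℝ) ^ 9 * LL Y ^ 2 * (4 + Real.log (tj j)) *
          (LL Y ^ 2 * x ^ (-(21 / 20) : ℝ) + LL Y / x)) / ((L ^ (2 - 1 / 200 : ℝ)) ^ 2 / 4)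
        ≤ 82 ^ 2 * (C * w * (108 * L ^ (4 - 1 / 40 : ℝ)) / x) / ((L ^ (2 - 1 / 200 : ℝ)) ^ 2 / 4) := by
          apply div_le_div_of_nonneg_right _ (by positivity)
          exact mul_le_mul_of_nonneg_left h1 (by norm_num)
      _ = (82 ^ 2 * 4 * 108 * C) * L ^ (-(3 / 200) : ℝ) * (w / x) := by
          rw [hsq, h14]
          field_simp
      _ ≤ (246 + 82 ^ 2 * 4 * 108 * C) * L ^ (-(3 / 200) : ℝ) * (w / x) := by
          apply mul_le_mul_of_nonneg_right _ (by positivity)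
          apply mul_le_mul_of_nonneg_right _ hP.le
          linarith

theorem good_prob2_of (hvar : VarVQ2) (C1 : ℕ) : ∃ i0 : ℕ, ∀ i : ℕ, i0 ≤ i → ∀ z Rs : ℕ, 1 ≤ Rs →
    pr (PP (2 ^ (2 * 2 ^ i))) (fun T => ¬ Good z (2 ^ (2 * 2 ^ i)) (2 ^ (4 * 2 ^ i)) Rs ((2 ^ i) ^ C1)
      (3 * (2 ^ i) ^ C1) (((2 : ℝ) ^ i) ^ (2 - 1 / 200 : ℝ)) T) ≤ ((2 : ℝ) ^ i) ^ (-(1 / 100) : ℝ) := by
  obtain ⟨C, hC, hVar⟩ := hvar
  obtain ⟨K, hK⟩ : ∃ K : ℝ, K = 2 * C1 + 7 := ⟨_, rfl⟩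
  have hK0 : 0 < K := by rw [hK]; positivity
  obtain ⟨A, hA⟩ : ∃ A : ℝ, A = 246 + 82 ^ 2 * 4 * 108 * C := ⟨_, rfl⟩
  have hA0 : 0 < A := by rw [hA]; positivity
  have hM0 : 0 < A * K ^ 514 := by positivity
  obtain ⟨ε, hε'⟩ : ∃ ε : ℝ, ε = 1 / 200 := ⟨_, rfl⟩
  have hε : 0 < ε := by rw [hε']; norm_num
  have h2ε : (1 : ℝ) < 2 ^ ε := Real.one_lt_rpow (by norm_num) hε
  have ev1 : ∀ᶠ i : ℕ in Filter.atTop, (i : ℝ) ^ 514 / ((2 : ℝ) ^ ε) ^ i < 1 / (A * K ^ 514) :=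
    (tendsto_pow_const_div_const_pow_of_one_lt 514 h2ε).eventually_lt_const (one_div_pos.2 hM0)
  have hC3 : (0 : ℝ) < (C1 : ℝ) + 3 := by positivity
  have ev2 : ∀ᶠ i : ℕ in Filter.atTop, (i : ℝ) ^ 1 / (2 : ℝ) ^ i < 1 / ((C1 : ℝ) + 3) :=
    (tendsto_pow_const_div_const_pow_of_one_lt 1 (by norm_num : (1 : ℝ) < 2)).eventually_lt_const
      (one_div_pos.2 hC3)
  obtain ⟨i1, h1⟩ := Filter.eventually_atTop.1 ev1
  obtain ⟨i2, h2⟩ := Filter.eventually_atTop.1 ev2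
  refine ⟨i1 + i2 + 18, fun i hi z Rs hRs => ?_⟩
  have g1 := h1 i (by omega)
  have g2 := h2 i (by omega)
  have hI : (9 : ℝ) ≤ i := by exact_mod_cast (by omega : 9 ≤ i)
  have hL : (262144 : ℝ) ≤ (2 : ℝ) ^ i := by
    calc (262144 : ℝ) = 2 ^ 18 := by norm_num
      _ ≤ 2 ^ i := pow_le_pow_right₀ (by norm_num) (by omega)
  have hlog : Real.log 2 ≤ 1 := by
    have := Real.log_two_lt_d9
    linarith
  have hlog0 : 0 ≤ Real.log 2 := Real.log_nonneg (by norm_num)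
  have hlog3 : Real.log 3 ≤ 2 := by
    have := Real.log_le_sub_one_of_pos (by norm_num : (0 : ℝ) < 3)
    linarith
  have hYle : LL (2 ^ (2 * 2 ^ i)) ≤ 3 * (2 : ℝ) ^ i := by
    unfold LL
    rw [Nat.cast_pow, Real.log_pow]
    push_cast
    nlinarith
  have hY0 : 0 ≤ LL (2 ^ (2 * 2 ^ i)) := by
    unfold LL
    have : 0 ≤ Real.log ((2 ^ (2 * 2 ^ i) : ℕ) : ℝ) := Real.log_natCast_nonneg _
    linarith
  have hlQ : Real.log (((2 ^ i) ^ C1 : ℕ) : ℝ) ≤ C1 * i := by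
    rw [Nat.cast_pow, Nat.cast_pow, Real.log_pow, Real.log_pow]
    push_cast
    have h3 : (i : ℝ) * Real.log 2 ≤ i := by nlinarith
    exact mul_le_mul_of_nonneg_left h3 (by positivity)
  have hQ0 : 0 ≤ Real.log (((2 ^ i) ^ C1 : ℕ) : ℝ) := Real.log_natCast_nonneg _
  have hlJ : Real.log ((3 * (2 ^ i) ^ C1 : ℕ) : ℝ) ≤ 2 + C1 * i := by
    rw [Nat.cast_mul, Real.log_mul (by norm_num) (by positivity)]
    push_cast at hlQ ⊢
    linarith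
  have hJ0 : 0 ≤ Real.log ((3 * (2 ^ i) ^ C1 : ℕ) : ℝ) := Real.log_natCast_nonneg _
  have hCi : (0 : ℝ) ≤ C1 * i := by positivity
  have hLQ : LL ((2 ^ i) ^ C1) ≤ K * i := by
    rw [hK]
    unfold LL
    nlinarith
  have hLQ0 : 0 ≤ LL ((2 ^ i) ^ C1) := by
    unfold LL
    linarith
  have hJ1 : 4 + Real.log ((3 * (2 ^ i) ^ C1 : ℕ) : ℝ) ≤ K * i := by
    rw [hK]
    nlinarith
  have hJ2 : 1 + 2 * LL (3 * (2 ^ i) ^ C1) ≤ K * i := by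
    rw [hK]
    unfold LL
    nlinarith
  have hJ20 : 0 ≤ 1 + 2 * LL (3 * (2 ^ i) ^ C1) := by
    unfold LL
    linarith
  have hL0 : (0 : ℝ) < (2 : ℝ) ^ i := by linarith
  have hEi : ((2 : ℝ) ^ i) ^ ε = ((2 : ℝ) ^ ε) ^ i := by
    rw [← Real.rpow_natCast, ← Real.rpow_natCast, ← Real.rpow_mul (by norm_num),
      ← Real.rpow_mul (by norm_num), mul_comm]
  have hpoly : 6 * (2 ^ i) ^ C1 ≤ 2 ^ (2 * 2 ^ i) := by
    rw [pow_one, div_lt_div_iff₀ hL0 hC3, one_mul] at g2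
    have g3 : i * (C1 + 3) < 2 ^ i := by exact_mod_cast g2
    calc 6 * (2 ^ i) ^ C1 ≤ 2 ^ 3 * (2 ^ i) ^ C1 := Nat.mul_le_mul_right _ (by norm_num)
      _ = 2 ^ (3 + i * C1) := by rw [← pow_mul, ← pow_add]
      _ ≤ 2 ^ (2 * 2 ^ i) := by
          refine Nat.pow_le_pow_right (by norm_num) ?_
          have g4 : i * (C1 + 3) = i * C1 + 3 * i := by ring
          omega
  have hJR : 2 * (3 * (2 ^ i) ^ C1) * 2 ^ (2 * 2 ^ i) ≤ 2 ^ (4 * 2 ^ i) := by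
    calc 2 * (3 * (2 ^ i) ^ C1) * 2 ^ (2 * 2 ^ i) = 6 * (2 ^ i) ^ C1 * 2 ^ (2 * 2 ^ i) := by ring
      _ ≤ 2 ^ (2 * 2 ^ i) * 2 ^ (2 * 2 ^ i) := Nat.mul_le_mul_right _ hpoly
      _ = 2 ^ (4 * 2 ^ i) := by
          rw [← pow_add]
          congr 1
          ring
  have hQ1 : 1 ≤ (2 ^ i) ^ C1 := Nat.one_le_pow _ _ (by positivity)
  obtain ⟨Q, hQe⟩ : ∃ Q : ℕ, Q = (2 ^ i) ^ C1 := ⟨_, rfl⟩
  obtain ⟨J, hJe⟩ : ∃ J : ℕ, J = 3 * (2 ^ i) ^ C1 := ⟨_, rfl⟩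
  obtain ⟨Y, hYe⟩ : ∃ Y : ℕ, Y = 2 ^ (2 * 2 ^ i) := ⟨_, rfl⟩
  obtain ⟨R, hRe⟩ : ∃ R : ℕ, R = 2 ^ (4 * 2 ^ i) := ⟨_, rfl⟩
  obtain ⟨L, hLe⟩ : ∃ L : ℝ, L = (2 : ℝ) ^ i := ⟨_, rfl⟩
  have hY1 : 1 ≤ Y := by rw [hYe]; exact Nat.one_le_two_pow
  have hR1 : 1 ≤ R := by rw [hRe]; exact Nat.one_le_two_pow
  have hJpos : 1 ≤ J := by rw [hJe]; omega
  rw [← hJe, ← hQe, ← hYe, ← hRe, ← hLe]
  rw [← hQe] at hLQ hLQ0 hQ0 hQ1
  rw [← hJe] at hJ1 hJ2 hJ20 hJ0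
  rw [← hJe, ← hYe, ← hRe] at hJR
  rw [← hYe] at hYle hY0
  rw [← hLe] at hYle hL hL0 hEi
  have hL1 : 1 ≤ L := by linarith
  have hv : 164 * LL Y ≤ L ^ (2 - 1 / 200 : ℝ) := by
    have h3 : (492 : ℝ) ≤ L ^ (1 / 2 : ℝ) := by
      have h4 : ((492 : ℝ) ^ (2 : ℝ)) ^ (1 / 2 : ℝ) = 492 := by
        rw [← Real.rpow_mul (by norm_num)]; norm_num
      rw [← h4]
      apply Real.rpow_le_rpow (by positivity) _ (by norm_num)
      rw [Real.rpow_two]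
      norm_num
      linarith
    calc 164 * LL Y ≤ 164 * (3 * L) := by linarith
      _ = 492 * L := by ring
      _ ≤ L ^ (1 / 2 : ℝ) * L := mul_le_mul_of_nonneg_right h3 hL0.le
      _ = L ^ (1 / 2 + 1 : ℝ) := by rw [Real.rpow_add hL0, Real.rpow_one]
      _ ≤ L ^ (2 - 1 / 200 : ℝ) := Real.rpow_le_rpow_of_exponent_le hL1 (by norm_num)
  have hun : pr (PP Y) (fun T => ¬ Good z Y R Rs Q J (L ^ (2 - 1 / 200 : ℝ)) T) ≤
      pr (PP Y) (fun T => ∃ p ∈ Finset.Icc 1 Q ×ˢ Finset.Icc (-(J : ℤ)) J,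
        L ^ (2 - 1 / 200 : ℝ) < VS z Y R Rs p.1 p.2 T) := by
    refine pr_mono fun T _ hT => ?_
    unfold Good at hT
    push Not at hT
    obtain ⟨q, hq1, hqQ, j, hj, hlt⟩ := hT
    refine ⟨(q, j), Finset.mem_product.mpr ⟨Finset.mem_Icc.mpr ⟨hq1, hqQ⟩, ?_⟩, hlt⟩
    exact Finset.mem_Icc.mpr (abs_le.mp hj)
  refine hun.trans ((pr_exists _ _ _).trans ?_)
  have hsingle : ∀ p ∈ Finset.Icc 1 Q ×ˢ Finset.Icc (-(J : ℤ)) J,
      pr (PP Y) (fun T => L ^ (2 - 1 / 200 : ℝ) < VS z Y R Rs p.1 p.2 T) ≤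
      A * L ^ (-(3 / 200) : ℝ) *
        (((p.1.divisors.card : ℝ) ^ 9 / p.1) * ((4 + Real.log (tj p.2)) / tj p.2)) := by
    intro p hp
    obtain ⟨hp1, hp2⟩ := Finset.mem_product.mp hp
    have hq1 := (Finset.mem_Icc.mp hp1).1
    have hj : |p.2| ≤ (J : ℤ) := abs_le.mpr (Finset.mem_Icc.mp hp2)
    have hjR : 2 * |(p.2 : ℝ)| * Y ≤ R := by
      have h3 : |(p.2 : ℝ)| ≤ J := by exact_mod_cast hj
      have h4 : ((2 * J * Y : ℕ) : ℝ) ≤ R := by exact_mod_cast hJR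
      push_cast at h4
      have h5 : (0 : ℝ) ≤ Y := Nat.cast_nonneg Y
      have h6 := mul_le_mul_of_nonneg_right h3 h5
      linarith
    rw [hA]
    exact sAB C L hC (by linarith) (PP Y) z Y R Rs p.1 J p.2
      (fun ρ hρ => hVar (PP Y) z Y R p.1 p.2 ρ (Finset.Subset.refl _) hq1 hY1 hR1 hρ hjR)
      (Finset.Subset.refl _) hY1 hR1 hRs hq1 hYle hv
  refine (Finset.sum_le_sum hsingle).trans ?_
  rw [← Finset.mul_sum, Finset.sum_product]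
  have h3 : ∑ q ∈ Finset.Icc 1 Q, ∑ j ∈ Finset.Icc (-(J : ℤ)) J,
      (((q.divisors.card : ℝ) ^ 9 / q) * ((4 + Real.log (tj j)) / tj j)) =
      (∑ q ∈ Finset.Icc 1 Q, (q.divisors.card : ℝ) ^ 9 / q) *
        ∑ j ∈ Finset.Icc (-(J : ℤ)) J, (4 + Real.log (tj j)) / tj j := by
    rw [Finset.sum_mul]
    exact Finset.sum_congr rfl fun q _ => (Finset.mul_sum _ _ _).symm
  have h4 := div_pow_sum 9 Q hQ1
  have h5 := int_sum J hJpos
  have h6 : LL Q ^ (2 ^ 9) = LL Q ^ 512 := by norm_num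
  rw [h6] at h4
  have h7 : 0 ≤ ∑ j ∈ Finset.Icc (-(J : ℤ)) J, (4 + Real.log (tj j)) / tj j := by
    refine Finset.sum_nonneg fun j _ => ?_
    have h8 : 1 ≤ tj j := le_max_left _ _
    have h9 := Real.log_nonneg h8
    positivity
  have h8 : (0 : ℝ) ≤ LL Q ^ 512 := by positivity
  have h9 := mul_le_mul h4 h5 h7 h8
  have h10 : (0 : ℝ) ≤ A * L ^ (-(3 / 200) : ℝ) := by positivity
  have b3 : (i : ℝ) ^ 514 * (A * K ^ 514) ≤ L ^ ε := by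
    rw [hEi]
    rw [div_lt_div_iff₀ (by positivity) hM0, one_mul] at g1
    exact g1.le
  have hi0 : (0 : ℝ) ≤ i := Nat.cast_nonneg i
  calc A * L ^ (-(3 / 200) : ℝ) * _
      ≤ A * L ^ (-(3 / 200) : ℝ) * (LL Q ^ 512 * ((4 + Real.log J) * (1 + 2 * LL J))) := by
        refine mul_le_mul_of_nonneg_left ?_ h10
        exact h3.le.trans h9
    _ ≤ A * L ^ (-(3 / 200) : ℝ) * ((K * i) ^ 512 * ((K * i) * (K * i))) := by
        refine mul_le_mul_of_nonneg_left ?_ h10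
        apply mul_le_mul
        · exact pow_le_pow_left₀ hLQ0 hLQ 512
        · exact mul_le_mul hJ1 hJ2 hJ20 (by positivity)
        · exact mul_nonneg (by linarith) hJ20
        · positivity
    _ = ((i : ℝ) ^ 514 * (A * K ^ 514)) * L ^ (-(3 / 200) : ℝ) := by ring
    _ ≤ L ^ ε * L ^ (-(3 / 200) : ℝ) := mul_le_mul_of_nonneg_right b3 (by positivity)
    _ = L ^ (-(1 / 100) : ℝ) := by
        rw [← Real.rpow_add hL0, hε']
        norm_num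

end Pool.Agent.Helper51.EA
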