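import Pool.Agent.Helper51.EA.Defs
import Pool.Agent.Helper5.RS.Chain

/-!
# Block EA-C7: all points of small complexity, grid `jj / 2^(a+ρ)`

Copy of RS-N3, RS-N4 with the exponents of `near_point2` (C6) and `good_prob2` (C5), taken as hypotheses.
-/

set_option autoImplicit false

namespace Pool.Agent.Helper51.EA

open Finset Pool.Agent.Helper5.RM Pool.Agent.Helper5.RS

/-- statement of `near_point2` -/
def NearPoint2 (C1 K : ℕ) : Prop := ∃ (κ0 i0 : ℕ), ∀ i : ℕ, i0 ≤ i → ∃ z : ℕ, ∀ (N q a : ℕ) (x : ℝ),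
    2 ^ 2 ^ i ≤ N → N ≤ 2 ^ (2 * 2 ^ i) → 1 ≤ q → q ≤ (2 ^ i) ^ C1 → Nat.Coprime a q →
    N * |x - (a : ℝ) / q| ≤ 2 * ((2 : ℝ) ^ i) ^ C1 →
      pr (PP (2 ^ (2 * 2 ^ i))) (fun T =>
        Good z (2 ^ (2 * 2 ^ i)) (2 ^ (4 * 2 ^ i)) (2 ^ (κ0 * i)) ((2 ^ i) ^ C1) (3 * (2 ^ i) ^ C1)
          (((2 : ℝ) ^ i) ^ (2 - 1 / 200 : ℝ)) T ∧
        Real.sqrt N * ((2 : ℝ) ^ i) ^ (1 / 2 - 1 / 2000 : ℝ) < ‖SN N T x‖) ≤ 1 / ((2 : ℝ) ^ i) ^ K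

/-- statement of `good_prob2` -/
def GoodProb2 (C1 : ℕ) : Prop := ∃ i0 : ℕ, ∀ i : ℕ, i0 ≤ i → ∀ z Rs : ℕ, 1 ≤ Rs →
    pr (PP (2 ^ (2 * 2 ^ i))) (fun T => ¬ Good z (2 ^ (2 * 2 ^ i)) (2 ^ (4 * 2 ^ i)) Rs ((2 ^ i) ^ C1)
      (3 * (2 ^ i) ^ C1) (((2 : ℝ) ^ i) ^ (2 - 1 / 200 : ℝ)) T) ≤ ((2 : ℝ) ^ i) ^ (-(1 / 100) : ℝ)

private lemma nm_approx (a jj L : ℕ) (h : DD (2 ^ a) ((jj : ℝ) / (2 ^ a : ℕ)) < (L : ℝ)) :
    ∃ q a' : ℕ, 1 ≤ q ∧ q ≤ L ∧ Nat.Coprime a' q ∧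
      ∀ N0 : ℕ, N0 ≤ 2 ^ (a + 1) → N0 * |(jj : ℝ) / (2 ^ a : ℕ) - (a' : ℝ) / q| ≤ 2 * (L : ℝ) := by
  have hX1 : 1 ≤ 2 ^ a := Nat.one_le_two_pow
  generalize hX : 2 ^ a = X at *
  have hx0 : 0 ≤ (jj : ℝ) / (X : ℕ) := by positivity
  generalize (jj : ℝ) / (X : ℕ) = x at *
  have hne : (Finset.Icc 1 X).Nonempty := ⟨1, by simp [hX1]⟩
  unfold DD at h
  rw [dif_pos hne, Finset.inf'_lt_iff] at h
  obtain ⟨m, hm, hlt⟩ := h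
  rw [Finset.mem_Icc] at hm
  have hnd0 : 0 ≤ nd (m * x) := abs_nonneg _
  have hmL : m ≤ L := by
    have h1 : 0 ≤ (X : ℝ) * nd (m * x) := by positivity
    have h2 : (m : ℝ) < L := by linarith
    exact_mod_cast h2.le
  have hndB : (X : ℝ) * nd (m * x) ≤ L := by
    have h1 : (0 : ℝ) ≤ m := by positivity
    linarith
  have hr : 0 ≤ round ((m : ℝ) * x) := by
    rw [round_eq]
    exact Int.floor_nonneg.2 (by positivity)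
  obtain ⟨p, hp⟩ := Int.eq_ofNat_of_zero_le hr
  have hgpos : 0 < Nat.gcd m p := Nat.gcd_pos_of_pos_left _ hm.1
  have hcop := Nat.coprime_div_gcd_div_gcd hgpos
  obtain ⟨q, hq⟩ := Nat.gcd_dvd_left m p
  obtain ⟨a', ha'⟩ := Nat.gcd_dvd_right m p
  have hq' : m / Nat.gcd m p = q := by
    conv_lhs => rw [hq]
    rw [← hq]
    exact Nat.div_eq_of_eq_mul_right hgpos hq
  have ha'' : p / Nat.gcd m p = a' := Nat.div_eq_of_eq_mul_right hgpos ha'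
  rw [hq', ha''] at hcop
  have hqpos : 1 ≤ q := by
    rcases Nat.eq_zero_or_pos q with h0 | h0
    · rw [h0, mul_zero] at hq; omega
    · exact h0
  refine ⟨q, a', hqpos, ?_, hcop.symm, ?_⟩
  · have h1 : q ≤ m := by
      rw [hq]; exact Nat.le_mul_of_pos_left _ hgpos
    omega
  · intro N0 hN0
    have hqR : (0 : ℝ) < q := by exact_mod_cast hqpos
    have hgR : (0 : ℝ) < (Nat.gcd m p : ℕ) := by exact_mod_cast hgpos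
    have hmR : (1 : ℝ) ≤ m := by exact_mod_cast hm.1
    have hmq : (m : ℝ) = (Nat.gcd m p : ℕ) * q := by exact_mod_cast hq
    have hpq : (p : ℝ) = (Nat.gcd m p : ℕ) * a' := by exact_mod_cast ha'
    have h1 : (a' : ℝ) / q = p / m := by
      rw [hmq, hpq]; field_simp
    have hm0 : (m : ℝ) ≠ 0 := by positivity
    have h2 : |x - (a' : ℝ) / q| ≤ nd (m * x) := by
      rw [h1]
      have h3 : x - (p : ℝ) / m = (m * x - p) / m := by field_simp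
      rw [h3, abs_div, abs_of_pos (by positivity : (0:ℝ) < m), div_le_iff₀ (by positivity)]
      have h4 : |(m : ℝ) * x - p| = nd (m * x) := by
        unfold nd
        rw [hp]; simp
      rw [h4]
      nlinarith
    have hN0' : (N0 : ℝ) ≤ 2 * X := by
      have : N0 ≤ 2 * X := by rw [← hX]; rw [pow_succ] at hN0; omega
      exact_mod_cast this
    calc (N0 : ℝ) * |x - (a' : ℝ) / q| ≤ (2 * X) * nd (m * x) := by
          apply mul_le_mul hN0' h2 (abs_nonneg _) (by positivity)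
      _ = 2 * (X * nd (m * x)) := by ring
      _ ≤ 2 * (L : ℝ) := by linarith

private lemma nm_sq : ∀ i : ℕ, 4 ≤ i → i * i ≤ 2 ^ i := by
  intro i hi
  induction i, hi using Nat.le_induction with
  | base => norm_num
  | succ n hn ih => rw [pow_succ]; nlinarith

private lemma nm_LL (i a : ℕ) (ha : a + 1 ≤ 2 * 2 ^ i) : LL (2 ^ (a + 1)) ≤ 3 * (2 : ℝ) ^ i := by
  unfold LL
  have h1 : Real.log ((2 ^ (a + 1) : ℕ) : ℝ) = (a + 1 : ℕ) * Real.log 2 := by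
    push_cast
    rw [← Real.rpow_natCast, Real.log_rpow (by norm_num)]
    push_cast; ring
  rw [h1]
  have h2 : ((a + 1 : ℕ) : ℝ) ≤ 2 * 2 ^ i := by exact_mod_cast ha
  have h3 : (1 : ℝ) ≤ 2 ^ i := one_le_pow₀ (by norm_num)
  have h4 : Real.log 2 ≤ 0.7 := by have := Real.log_two_lt_d9; linarith
  have h5 : 0 < Real.log 2 := Real.log_pos (by norm_num)
  have h6 : ((a + 1 : ℕ) : ℝ) * Real.log 2 ≤ (2 * 2 ^ i) * 0.7 := by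
    apply mul_le_mul h2 h4 h5.le (by positivity)
  linarith

private lemma nm_first (L l : ℝ) (W K K1 : ℕ) (hK1 : K1 = W + K + 3) (hL : 4 ≤ L) (hl0 : 0 ≤ l)
    (hl : l ≤ 3 * L) : 2 * l ^ W * (1 / L ^ K1) ^ 3 ≤ 1 / (2 * L ^ K) := by
  have hL0 : 0 < L := by linarith
  have h1 : l ^ W ≤ (L * L) ^ W := by
    apply pow_le_pow_left₀ hl0
    nlinarith
  have h2 : (1 / L ^ K1) ^ 3 = 1 / L ^ (3 * K1) := by
    rw [div_pow, one_pow, ← pow_mul, mul_comm]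
  rw [h2, mul_one_div, div_le_div_iff₀ (by positivity) (by positivity), one_mul]
  have h3 : L ^ (1 + 2 * W + K) ≤ L ^ (3 * K1) := by
    apply pow_le_pow_right₀ (by linarith)
    omega
  have h4 : (L * L) ^ W = L ^ (2 * W) := by
    rw [← sq, ← pow_mul]
  calc 2 * l ^ W * (2 * L ^ K) = 4 * l ^ W * L ^ K := by ring
    _ ≤ L * (L * L) ^ W * L ^ K := by
        apply mul_le_mul_of_nonneg_right _ (by positivity)
        apply mul_le_mul hL h1 (by positivity) hL0.le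
    _ = L ^ (1 + 2 * W + K) := by rw [h4, pow_add, pow_add, pow_one]
    _ ≤ L ^ (3 * K1) := h3

private lemma nm_second (L : ℝ) (K K1 : ℕ) (hL : 4 ≤ L) :
    (L ^ K1 + 1) * (1 / L ^ (K + K1 + 2)) ≤ 1 / (2 * L ^ K) := by
  have hL0 : 0 < L := by linarith
  have h1 : (1 : ℝ) ≤ L ^ K1 := one_le_pow₀ (by linarith)
  rw [mul_one_div, div_le_div_iff₀ (by positivity) (by positivity), one_mul]
  have h2 : L ^ (K + K1 + 2) = L ^ K * L ^ K1 * L ^ 2 := by rw [pow_add, pow_add]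
  rw [h2]
  have h3 : (16 : ℝ) ≤ L ^ 2 := by nlinarith
  have h4 : (0 : ℝ) < L ^ K := by positivity
  calc (L ^ K1 + 1) * (2 * L ^ K) ≤ (2 * L ^ K1) * (2 * L ^ K) := by
        apply mul_le_mul_of_nonneg_right _ (by positivity)
        linarith
    _ = L ^ K * L ^ K1 * 4 := by ring
    _ ≤ L ^ K * L ^ K1 * L ^ 2 := by
        apply mul_le_mul_of_nonneg_left _ (by positivity)
        linarith

theorem near_max2 (C1 K ρ : ℕ) (hnp : ∀ K : ℕ, NearPoint2 C1 K) : ∃ (κ0 : ℕ) (i0 : ℕ),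
    ∀ i : ℕ, i0 ≤ i → ∃ z : ℕ, ∀ a : ℕ, 2 ^ i ≤ a → a < 2 * 2 ^ i → ∀ jj : ℕ, jj < 2 ^ (a + ρ) →
      DD (2 ^ (a + ρ)) ((jj : ℝ) / (2 ^ (a + ρ) : ℕ)) < ((2 : ℝ) ^ i) ^ C1 →
      pr (PP (2 ^ (2 * 2 ^ i))) (fun T =>
        Good z (2 ^ (2 * 2 ^ i)) (2 ^ (4 * 2 ^ i)) (2 ^ (κ0 * i)) ((2 ^ i) ^ C1) (3 * (2 ^ i) ^ C1)
          (((2 : ℝ) ^ i) ^ (2 - 1 / 200 : ℝ)) T ∧
        ∃ N : ℕ, 2 ^ a ≤ N ∧ N ≤ 2 ^ (a + 1) ∧
          Real.sqrt (2 ^ a) * ((2 : ℝ) ^ i) ^ (1 / 2 - 1 / 4000 : ℝ) < ‖SN N T ((jj : ℝ) / (2 ^ (a + ρ) : ℕ))‖) ≤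
        1 / ((2 : ℝ) ^ i) ^ K := by
  obtain ⟨W, hW⟩ : ∃ W : ℕ, (2 * 4 - 1) ^ 4 ≤ W := ⟨_, le_rfl⟩
  obtain ⟨K1, hK1⟩ : ∃ K1 : ℕ, K1 = W + K + 3 := ⟨_, rfl⟩
  obtain ⟨κ0, i1, H⟩ := hnp (K + K1 + 2)
  obtain ⟨i3, hi3⟩ : ∃ i3 : ℕ, i3 = 12000 := ⟨_, rfl⟩
  refine ⟨κ0, i1 + K1 + i3 + 4, fun i hi => ?_⟩
  obtain ⟨z, Hz⟩ := H i (by omega)
  refine ⟨z, fun a ha1 ha2 jj _ hD => ?_⟩
  have hKi : K1 * i ≤ a := by
    have h1 := nm_sq i (by omega)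
    have h2 : K1 * i ≤ i * i := Nat.mul_le_mul_right _ (by omega)
    omega
  obtain ⟨s0, hs0⟩ : ∃ s0 : ℕ, a = s0 + K1 * i := ⟨a - K1 * i, by omega⟩
  have hL4 : (4 : ℝ) ≤ 2 ^ i := by
    have : (2 : ℝ) ^ 2 ≤ 2 ^ i := pow_le_pow_right₀ (by norm_num) (by omega)
    linarith
  have hL0 : (0 : ℝ) < 2 ^ i := by positivity
  have hL8 : (8 : ℝ) ≤ ((2 : ℝ) ^ i) ^ (1 / 4000 : ℝ) := by
    rw [← Real.rpow_natCast, ← Real.rpow_mul (by norm_num)]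
    have h1 : (3 : ℝ) ≤ i * (1 / 4000 : ℝ) := by
      have h2 : ((12000 : ℕ) : ℝ) ≤ i := by exact_mod_cast (by omega : 12000 ≤ i)
      push_cast at h2
      linarith
    calc (8 : ℝ) = (2 : ℝ) ^ (3 : ℝ) := by norm_num
      _ ≤ (2 : ℝ) ^ ((i : ℝ) * (1 / 4000 : ℝ)) := Real.rpow_le_rpow_of_exponent_le (by norm_num) h1
  have hD' : DD (2 ^ (a + ρ)) ((jj : ℝ) / (2 ^ (a + ρ) : ℕ)) < (((2 ^ i) ^ C1 : ℕ) : ℝ) := by
    have h : (((2 ^ i) ^ C1 : ℕ) : ℝ) = ((2 : ℝ) ^ i) ^ C1 := by push_cast; rfl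
    rw [h]; exact hD
  obtain ⟨q, a', hq1, hqL, hcop, happ⟩ := nm_approx (a + ρ) jj _ hD'
  generalize hx0 : (jj : ℝ) / (2 ^ (a + ρ) : ℕ) = x0 at *
  have hpow : ∀ b : ℕ, a + b = s0 + (K1 * i + b) := by intro b; omega
  -- the decomposition
  have hdec := pr_le_add (S := PP (2 ^ (2 * 2 ^ i)))
    (P := fun T => Good z (2 ^ (2 * 2 ^ i)) (2 ^ (4 * 2 ^ i)) (2 ^ (κ0 * i)) ((2 ^ i) ^ C1)
        (3 * (2 ^ i) ^ C1) (((2 : ℝ) ^ i) ^ (2 - 1 / 200 : ℝ)) T ∧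
        ∃ N : ℕ, 2 ^ a ≤ N ∧ N ≤ 2 ^ (a + 1) ∧
          Real.sqrt (2 ^ a) * ((2 : ℝ) ^ i) ^ (1 / 2 - 1 / 4000 : ℝ) < ‖SN N T x0‖)
    (Q := fun T => ∃ N : ℕ, 2 ^ a ≤ N ∧ N ≤ 2 ^ (a + 1) ∧
      6 * Real.sqrt (2 ^ a) < ‖SN N T x0 - SN (2 ^ s0 * (N / 2 ^ s0)) T x0‖)
    (R := fun T => ∃ w ∈ Finset.Icc (2 ^ (K1 * i)) (2 ^ (K1 * i + 1)),
      Good z (2 ^ (2 * 2 ^ i)) (2 ^ (4 * 2 ^ i)) (2 ^ (κ0 * i)) ((2 ^ i) ^ C1)
        (3 * (2 ^ i) ^ C1) (((2 : ℝ) ^ i) ^ (2 - 1 / 200 : ℝ)) T ∧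
      Real.sqrt ((2 ^ s0 * w : ℕ) : ℝ) * ((2 : ℝ) ^ i) ^ (1 / 2 - 1 / 2000 : ℝ) < ‖SN (2 ^ s0 * w) T x0‖)
    (by
      rintro T _ ⟨hG, N, hN1, hN2, hlt⟩
      by_cases h6 : 6 * Real.sqrt (2 ^ a) < ‖SN N T x0 - SN (2 ^ s0 * (N / 2 ^ s0)) T x0‖
      · exact Or.inl ⟨N, hN1, hN2, h6⟩
      · right
        refine ⟨N / 2 ^ s0, ?_, hG, ?_⟩
        · rw [Finset.mem_Icc]
          constructor
          · rw [Nat.le_div_iff_mul_le (by positivity), ← pow_add, add_comm, ← hs0]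
            exact hN1
          · apply Nat.div_le_of_le_mul
            rw [← pow_add, ← hpow]
            exact hN2
        · have hN0 : 2 ^ s0 * (N / 2 ^ s0) ≤ 2 ^ (a + 1) := (Nat.mul_div_le _ _).trans hN2
          generalize 2 ^ s0 * (N / 2 ^ s0) = N0 at *
          have hs1 : Real.sqrt (N0 : ℝ) ≤ 2 * Real.sqrt (2 ^ a) := by
            rw [show (2 : ℝ) * Real.sqrt (2 ^ a) = Real.sqrt (2 ^ 2 * 2 ^ a) by
              rw [Real.sqrt_mul (by positivity), Real.sqrt_sq (by norm_num)]]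
            apply Real.sqrt_le_sqrt
            have h1 : (N0 : ℝ) ≤ 2 ^ (a + 1) := by exact_mod_cast hN0
            have h2 : (0 : ℝ) < 2 ^ a := by positivity
            rw [pow_succ] at h1
            linarith
          have hsplit : ((2 : ℝ) ^ i) ^ (1 / 2 - 1 / 4000 : ℝ) =
              ((2 : ℝ) ^ i) ^ (1 / 2 - 1 / 2000 : ℝ) * ((2 : ℝ) ^ i) ^ (1 / 4000 : ℝ) := by
            rw [← Real.rpow_add hL0]; congr 1; norm_num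
          have hone : (1 : ℝ) ≤ ((2 : ℝ) ^ i) ^ (1 / 2 - 1 / 2000 : ℝ) :=
            Real.one_le_rpow (by linarith) (by norm_num)
          have hsq : 0 < Real.sqrt ((2 : ℝ) ^ a) := Real.sqrt_pos.2 (by positivity)
          push Not at h6
          have h7 : ‖SN N T x0‖ ≤ ‖SN N0 T x0‖ + 6 * Real.sqrt (2 ^ a) := by
            calc ‖SN N T x0‖ = ‖SN N0 T x0 + (SN N T x0 - SN N0 T x0)‖ := by congr 1; ring
              _ ≤ ‖SN N0 T x0‖ + ‖SN N T x0 - SN N0 T x0‖ := norm_add_le _ _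
              _ ≤ _ := by linarith
          rw [hsplit] at hlt
          generalize ((2 : ℝ) ^ i) ^ (1 / 2 - 1 / 2000 : ℝ) = A at *
          generalize ((2 : ℝ) ^ i) ^ (1 / 4000 : ℝ) = B at *
          generalize Real.sqrt ((2 : ℝ) ^ a) = s at *
          have h8 : s * (A * 8) ≤ s * (A * B) := by
            apply mul_le_mul_of_nonneg_left _ hsq.le
            apply mul_le_mul_of_nonneg_left hL8 (by linarith)
          have h9 : Real.sqrt (N0 : ℝ) * A ≤ 2 * s * A :=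
            mul_le_mul_of_nonneg_right hs1 (by linarith)
          nlinarith [mul_le_mul_of_nonneg_left hone hsq.le])
  refine hdec.trans ?_
  have hQ : pr (PP (2 ^ (2 * 2 ^ i))) (fun T => ∃ N : ℕ, 2 ^ a ≤ N ∧ N ≤ 2 ^ (a + 1) ∧
      6 * Real.sqrt (2 ^ a) < ‖SN N T x0 - SN (2 ^ s0 * (N / 2 ^ s0)) T x0‖) ≤
      1 / (2 * ((2 : ℝ) ^ i) ^ K) := by
    have h1 := chain 4 W a s0 (2 ^ (2 * 2 ^ i)) x0 (le_refl 4) hW (by omega)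
      (Nat.pow_le_pow_right (by norm_num) (by omega))
    refine h1.trans ?_
    have h2 : (2 : ℝ) ^ s0 / 2 ^ a = 1 / ((2 : ℝ) ^ i) ^ K1 := by
      rw [hs0, pow_add, ← pow_mul, mul_comm i K1]
      field_simp
    rw [h2, show (4 - 1 : ℕ) = 3 from rfl]
    apply nm_first _ _ W K K1 hK1 hL4
    · unfold LL
      have : 0 ≤ Real.log ((2 ^ (a + 1) : ℕ) : ℝ) := Real.log_natCast_nonneg _
      linarith
    · exact nm_LL i a (by omega)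
  have hR : pr (PP (2 ^ (2 * 2 ^ i))) (fun T => ∃ w ∈ Finset.Icc (2 ^ (K1 * i)) (2 ^ (K1 * i + 1)),
      Good z (2 ^ (2 * 2 ^ i)) (2 ^ (4 * 2 ^ i)) (2 ^ (κ0 * i)) ((2 ^ i) ^ C1)
        (3 * (2 ^ i) ^ C1) (((2 : ℝ) ^ i) ^ (2 - 1 / 200 : ℝ)) T ∧
      Real.sqrt ((2 ^ s0 * w : ℕ) : ℝ) * ((2 : ℝ) ^ i) ^ (1 / 2 - 1 / 2000 : ℝ) < ‖SN (2 ^ s0 * w) T x0‖) ≤
      1 / (2 * ((2 : ℝ) ^ i) ^ K) := by
    refine (pr_exists _ _ _).trans ?_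
    have h1 : ∀ w ∈ Finset.Icc (2 ^ (K1 * i)) (2 ^ (K1 * i + 1)),
        pr (PP (2 ^ (2 * 2 ^ i))) (fun T =>
          Good z (2 ^ (2 * 2 ^ i)) (2 ^ (4 * 2 ^ i)) (2 ^ (κ0 * i)) ((2 ^ i) ^ C1)
            (3 * (2 ^ i) ^ C1) (((2 : ℝ) ^ i) ^ (2 - 1 / 200 : ℝ)) T ∧
          Real.sqrt ((2 ^ s0 * w : ℕ) : ℝ) * ((2 : ℝ) ^ i) ^ (1 / 2 - 1 / 2000 : ℝ) <
            ‖SN (2 ^ s0 * w) T x0‖) ≤ 1 / ((2 : ℝ) ^ i) ^ (K + K1 + 2) := by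
      intro w hw
      rw [Finset.mem_Icc] at hw
      have hlo : 2 ^ a ≤ 2 ^ s0 * w := by
        rw [hs0, pow_add]
        exact Nat.mul_le_mul_left _ hw.1
      have hhi : 2 ^ s0 * w ≤ 2 ^ (a + 1) := by
        rw [hpow, pow_add 2 s0]
        exact Nat.mul_le_mul_left _ hw.2
      have h3 := happ (2 ^ s0 * w) (hhi.trans (Nat.pow_le_pow_right (by norm_num) (by omega)))
      refine Hz (2 ^ s0 * w) q a' x0 ?_ ?_ hq1 hqL hcop ?_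
      · exact (Nat.pow_le_pow_right (by norm_num) ha1).trans hlo
      · exact hhi.trans (Nat.pow_le_pow_right (by norm_num) (by omega))
      · push_cast at h3 ⊢
        exact h3
    refine (Finset.sum_le_card_nsmul _ _ _ h1).trans ?_
    rw [nsmul_eq_mul]
    have h2 : ((Finset.Icc (2 ^ (K1 * i)) (2 ^ (K1 * i + 1))).card : ℝ) = ((2 : ℝ) ^ i) ^ K1 + 1 := by
      rw [Nat.card_Icc]
      have : 2 ^ (K1 * i + 1) + 1 - 2 ^ (K1 * i) = 2 ^ (K1 * i) + 1 := by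
        rw [pow_succ]; omega
      rw [this]
      push_cast
      rw [← pow_mul, mul_comm i K1]
    rw [h2]
    exact nm_second _ K K1 hL4
  calc _ ≤ 1 / (2 * ((2 : ℝ) ^ i) ^ K) + 1 / (2 * ((2 : ℝ) ^ i) ^ K) := add_le_add hQ hR
    _ = 1 / ((2 : ℝ) ^ i) ^ K := by field_simp; norm_num

private theorem two_le26 {ε1 : ℝ} (h : 0 < ε1) {i : ℕ} (hi : ⌈2 / ε1⌉₊ ≤ i) :
    2 ≤ ((2 : ℝ) ^ i) ^ (ε1 / 2) := by
  have h1 : 2 / ε1 ≤ (i : ℝ) := Nat.ceil_le.1 hi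
  have h2 : 1 ≤ (i : ℝ) * (ε1 / 2) := by
    rw [div_le_iff₀ h] at h1
    linarith
  rw [← Real.rpow_natCast, ← Real.rpow_mul (by norm_num)]
  calc (2 : ℝ) = 2 ^ (1 : ℝ) := (Real.rpow_one 2).symm
    _ ≤ 2 ^ ((i : ℝ) * (ε1 / 2)) := Real.rpow_le_rpow_of_exponent_le (by norm_num) h2

private theorem final26 {ε1 : ℝ} (h : 0 < ε1) {i : ℕ} (hi : ⌈2 / ε1⌉₊ ≤ i) (hi3 : 3 ≤ i) :
    ((2 : ℝ) ^ i) ^ (-ε1) + 3 / ((2 : ℝ) ^ i) ^ 2 ≤ ((2 : ℝ) ^ i) ^ (-(min (ε1 / 2) 1)) := by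
  set L : ℝ := (2 : ℝ) ^ i with hL
  have hL8 : 8 ≤ L := by
    rw [hL]
    calc (8 : ℝ) = 2 ^ 3 := by norm_num
      _ ≤ 2 ^ i := pow_le_pow_right₀ (by norm_num) hi3
  have hL0 : 0 < L := by linarith
  have hL1 : 1 ≤ L := by linarith
  set c : ℝ := min (ε1 / 2) 1 with hc
  have hc1 : c ≤ ε1 / 2 := min_le_left _ _
  have hc2 : c ≤ 1 := min_le_right _ _
  have h1 : 2 * L ^ (-ε1) ≤ L ^ (-c) := by
    have h2 : L ^ (-c) = L ^ (-ε1) * L ^ (ε1 - c) := by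
      rw [← Real.rpow_add hL0]; congr 1; ring
    have h3 : L ^ (ε1 / 2) ≤ L ^ (ε1 - c) :=
      Real.rpow_le_rpow_of_exponent_le hL1 (by linarith)
    have h4 : 2 ≤ L ^ (ε1 / 2) := two_le26 h hi
    have h5 : 0 ≤ L ^ (-ε1) := Real.rpow_nonneg hL0.le _
    rw [h2]
    nlinarith
  have h2 : 2 * (3 / L ^ 2) ≤ L ^ (-c) := by
    have h3 : L ^ (-1 : ℝ) ≤ L ^ (-c) :=
      Real.rpow_le_rpow_of_exponent_le hL1 (by linarith)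
    rw [Real.rpow_neg_one] at h3
    refine le_trans ?_ h3
    rw [inv_eq_one_div, mul_div_assoc', div_le_div_iff₀ (by positivity) hL0]
    nlinarith
  linarith

theorem near_unif2_of (C1 ρ : ℕ) (hnp : ∀ K : ℕ, NearPoint2 C1 K) (hgp : GoodProb2 C1) : ∃ i0 : ℕ, ∀ i : ℕ, i0 ≤ i →
    pr (PP (2 ^ (2 * 2 ^ i))) (fun T => ∃ a jj N : ℕ, 2 ^ i ≤ a ∧ a < 2 * 2 ^ i ∧ jj < 2 ^ (a + ρ) ∧
      DD (2 ^ (a + ρ)) ((jj : ℝ) / (2 ^ (a + ρ) : ℕ)) < ((2 : ℝ) ^ i) ^ C1 ∧ 2 ^ a ≤ N ∧ N ≤ 2 ^ (a + 1) ∧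
      Real.sqrt (2 ^ a) * ((2 : ℝ) ^ i) ^ (1 / 2 - 1 / 4000 : ℝ) < ‖SN N T ((jj : ℝ) / (2 ^ (a + ρ) : ℕ))‖) ≤
      ((2 : ℝ) ^ i) ^ (-(1 / 200) : ℝ) := by
  classical
  obtain ⟨κ0, i1, hmax⟩ := near_max2 C1 (2 * C1 + 3) ρ hnp
  obtain ⟨i2, hgood⟩ := hgp
  obtain ⟨ε1, hε1e⟩ : ∃ ε1 : ℝ, ε1 = 1 / 100 := ⟨_, rfl⟩
  have hε1 : 0 < ε1 := by rw [hε1e]; norm_num
  refine ⟨max (max i1 i2) (max ⌈2 / ε1⌉₊ 3), ?_⟩
  intro i hi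
  have hi1 : i1 ≤ i := (le_max_left _ _).trans ((le_max_left _ _).trans hi)
  have hi2 : i2 ≤ i := (le_max_right _ _).trans ((le_max_left _ _).trans hi)
  have hi3 : ⌈2 / ε1⌉₊ ≤ i := (le_max_left _ _).trans ((le_max_right _ _).trans hi)
  have hi4 : 3 ≤ i := (le_max_right _ _).trans ((le_max_right _ _).trans hi)
  obtain ⟨z, hz⟩ := hmax i hi1
  have hg := hgood i hi2 z (2 ^ (κ0 * i)) Nat.one_le_two_pow
  set L : ℝ := (2 : ℝ) ^ i with hL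
  have hL0 : 0 < L := by rw [hL]; positivity
  have hL1 : 1 ≤ L := by rw [hL]; exact one_le_pow₀ (by norm_num)
  let Gd : Finset ℕ → Prop := fun T =>
    Good z (2 ^ (2 * 2 ^ i)) (2 ^ (4 * 2 ^ i)) (2 ^ (κ0 * i)) ((2 ^ i) ^ C1) (3 * (2 ^ i) ^ C1)
          (L ^ (2 - 1 / 200 : ℝ)) T
  let s : Finset (Σ _ : ℕ, ℕ) := (Finset.Ico (2 ^ i) (2 * 2 ^ i)).sigma (fun a =>
    (Finset.range (2 ^ (a + ρ))).filter (fun jj : ℕ => DD (2 ^ (a + ρ)) ((jj : ℝ) / (2 ^ (a + ρ) : ℕ)) < L ^ C1))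
  let R : (Σ _ : ℕ, ℕ) → Finset ℕ → Prop := fun p T => Gd T ∧
        ∃ N : ℕ, 2 ^ p.1 ≤ N ∧ N ≤ 2 ^ (p.1 + 1) ∧
          Real.sqrt (2 ^ p.1) * L ^ (1 / 2 - 1 / 4000 : ℝ) < ‖SN N T ((p.2 : ℝ) / (2 ^ (p.1 + ρ) : ℕ))‖
  have h1 := pr_le_add (S := PP (2 ^ (2 * 2 ^ i)))
    (P := fun T => ∃ a jj N : ℕ, 2 ^ i ≤ a ∧ a < 2 * 2 ^ i ∧ jj < 2 ^ (a + ρ) ∧
      DD (2 ^ (a + ρ)) ((jj : ℝ) / (2 ^ (a + ρ) : ℕ)) < L ^ C1 ∧ 2 ^ a ≤ N ∧ N ≤ 2 ^ (a + 1) ∧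
      Real.sqrt (2 ^ a) * L ^ (1 / 2 - 1 / 4000 : ℝ) < ‖SN N T ((jj : ℝ) / (2 ^ (a + ρ) : ℕ))‖)
    (Q := fun T => ¬ Gd T) (R := fun T => ∃ p ∈ s, R p T) (by
      rintro T - ⟨a, jj, N, ha1, ha2, hjj, hDD, hN1, hN2, hN3⟩
      by_cases hG : Gd T
      · right
        refine ⟨⟨a, jj⟩, ?_, hG, N, hN1, hN2, hN3⟩
        simp only [s, Finset.mem_sigma, Finset.mem_filter, Finset.mem_Ico, Finset.mem_range]
        exact ⟨⟨ha1, ha2⟩, hjj, hDD⟩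
      · left; exact hG)
  refine h1.trans ?_
  have h2 : pr (PP (2 ^ (2 * 2 ^ i))) (fun T => ∃ p ∈ s, R p T) ≤ 3 / L ^ 2 := by
    refine (pr_exists _ s R).trans ?_
    have h3 : ∀ p ∈ s, pr (PP (2 ^ (2 * 2 ^ i))) (R p) ≤ 1 / L ^ (2 * C1 + 3) := by
      rintro ⟨a, jj⟩ hp
      simp only [s, Finset.mem_sigma, Finset.mem_filter, Finset.mem_Ico, Finset.mem_range] at hp
      exact hz a hp.1.1 hp.1.2 jj hp.2.1 hp.2.2
    refine (Finset.sum_le_sum h3).trans ?_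
    rw [Finset.sum_const, nsmul_eq_mul]
    have h4 : (s.card : ℝ) ≤ L * (3 * (L ^ C1) ^ 2) := by
      have h5 : s.card = ∑ a ∈ Finset.Ico (2 ^ i) (2 * 2 ^ i), ((Finset.range (2 ^ (a + ρ))).filter
          (fun jj : ℕ => DD (2 ^ (a + ρ)) ((jj : ℝ) / (2 ^ (a + ρ) : ℕ)) < L ^ C1)).card :=
        Finset.card_sigma _ _
      rw [h5]
      push_cast
      have h6 : ∀ a ∈ Finset.Ico (2 ^ i) (2 * 2 ^ i), (((Finset.range (2 ^ (a + ρ))).filter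
          (fun jj : ℕ => DD (2 ^ (a + ρ)) ((jj : ℝ) / (2 ^ (a + ρ) : ℕ)) < L ^ C1)).card : ℝ)
          ≤ 3 * (L ^ C1) ^ 2 := by
        intro a _
        have h7 := DD_count (2 ^ (a + ρ)) Nat.one_le_two_pow (L ^ C1) (one_le_pow₀ hL1)
        convert h7 using 3
      refine (Finset.sum_le_sum (by simpa using h6)).trans ?_
      rw [Finset.sum_const, nsmul_eq_mul, Nat.card_Ico]
      have h8 : 2 * 2 ^ i - 2 ^ i = 2 ^ i := by omega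
      rw [h8]
      push_cast
      exact le_rfl
    have h9 : (s.card : ℝ) * (1 / L ^ (2 * C1 + 3)) ≤ L * (3 * (L ^ C1) ^ 2) * (1 / L ^ (2 * C1 + 3)) :=
      mul_le_mul_of_nonneg_right h4 (by positivity)
    refine h9.trans (le_of_eq ?_)
    have h10 : L ^ (2 * C1 + 3) = (L ^ C1) ^ 2 * L ^ 3 := by ring
    rw [h10]
    field_simp
  have hfin := final26 hε1 hi3 hi4
  have hmin : min (ε1 / 2) 1 = 1 / 200 := by rw [hε1e]; norm_num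
  rw [hmin] at hfin
  refine (add_le_add hg h2).trans ?_
  rw [hε1e] at hfin
  exact hfin


end Pool.Agent.Helper51.EA
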