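import Pool.Agent.Helper51.EA.Defs2

/-!
# Project EA, block T4 (`slow`): partial summation
-/

set_option autoImplicit false

namespace Pool.Agent.Helper51.EA

open Finset Pool.Agent.Helper5.RM Pool.Agent.Helper5.RS

/-- `‖1 - e t‖ ≤ 2π|t|` -/
lemma slow_one_sub_e (t : ℝ) : ‖1 - e t‖ ≤ 2 * Real.pi * |t| := by
  have h1 : e t = Complex.exp (Complex.I * ((2 * Real.pi * t : ℝ) : ℂ)) := by
    unfold e
    congr 1
    push_cast
    ring
  rw [h1, norm_sub_rev, Complex.norm_exp_I_mul_ofReal_sub_one, Real.norm_eq_abs, abs_mul, abs_two]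
  have h2 : |Real.sin (2 * Real.pi * t / 2)| ≤ |2 * Real.pi * t / 2| := Real.abs_sin_le_abs
  have h3 : |2 * Real.pi * t / 2| = Real.pi * |t| := by
    rw [show 2 * Real.pi * t / 2 = Real.pi * t by ring, abs_mul, abs_of_pos Real.pi_pos]
  rw [h3] at h2
  linarith

/-- T4. The function changes slowly. -/
theorem slow (N : ℕ) (c : ℕ → ℂ) (x y M : ℝ) (h : ∀ n ≤ N, ‖∑ m ∈ Icc 1 n, c m * e (m * x)‖ ≤ M) :
    ‖∑ n ∈ Icc 1 N, c n * e (n * x) - ∑ n ∈ Icc 1 N, c n * e (n * y)‖ ≤ 4 * Real.pi * (N + 1) * |x - y| * M := by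
  have hM : 0 ≤ M := (norm_nonneg _).trans (h 0 (Nat.zero_le _))
  set d : ℝ := 2 * Real.pi * |x - y| with hd
  have hd0 : 0 ≤ d := by positivity
  set g : ℕ → ℂ := fun n => 1 - e (n * (y - x)) with hg
  -- the difference as a sum
  have h1 : ∑ n ∈ Icc 1 N, c n * e (n * x) - ∑ n ∈ Icc 1 N, c n * e (n * y) =
      ∑ n ∈ Icc 1 N, c n * e (n * x) * g n := by
    rw [← Finset.sum_sub_distrib]
    refine Finset.sum_congr rfl fun n _ => ?_
    have h2 : e ((n : ℝ) * y) = e (n * x) * e (n * (y - x)) := by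
      rw [← e_add]; congr 1; ring
    rw [h2, hg]
    ring
  rw [h1]
  -- Abel summation by induction
  have key : ∀ n ≤ N, ‖∑ m ∈ Icc 1 n, c m * e (m * x) * g m - (∑ m ∈ Icc 1 n, c m * e (m * x)) * g n‖ ≤ n * d * M := by
    intro n
    induction n with
    | zero => intro _; simp
    | succ n ih =>
      intro hn
      have ih' := ih (by omega)
      rw [Finset.sum_Icc_succ_top (by omega), Finset.sum_Icc_succ_top (by omega)]
      have h3 : ∑ m ∈ Icc 1 n, c m * e (m * x) * g m + c (n + 1) * e ((n + 1 : ℕ) * x) * g (n + 1) -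
          (∑ m ∈ Icc 1 n, c m * e (m * x) + c (n + 1) * e ((n + 1 : ℕ) * x)) * g (n + 1) =
          (∑ m ∈ Icc 1 n, c m * e (m * x) * g m - (∑ m ∈ Icc 1 n, c m * e (m * x)) * g n) +
          (∑ m ∈ Icc 1 n, c m * e (m * x)) * (g n - g (n + 1)) := by ring
      rw [h3]
      have h4 : ‖g n - g (n + 1)‖ ≤ d := by
        have h5 : g n - g (n + 1) = -(e (n * (y - x)) * (1 - e (y - x))) := by
          simp only [hg]
          have : e (((n + 1 : ℕ) : ℝ) * (y - x)) = e (n * (y - x)) * e (y - x) := by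
            rw [← e_add]; congr 1; push_cast; ring
          rw [this]; ring
        rw [h5, norm_neg, norm_mul, norm_e, one_mul, hd, abs_sub_comm x y]
        exact slow_one_sub_e _
      calc _ ≤ ‖∑ m ∈ Icc 1 n, c m * e (m * x) * g m - (∑ m ∈ Icc 1 n, c m * e (m * x)) * g n‖ +
            ‖(∑ m ∈ Icc 1 n, c m * e (m * x)) * (g n - g (n + 1))‖ := norm_add_le _ _
        _ ≤ n * d * M + M * d := by
            refine add_le_add ih' ?_
            rw [norm_mul]
            exact mul_le_mul (h n (by omega)) h4 (norm_nonneg _) hM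
        _ = ((n + 1 : ℕ) : ℝ) * d * M := by push_cast; ring
  have h6 := key N le_rfl
  have h7 : ‖g N‖ ≤ N * d := by
    simp only [hg]
    refine (slow_one_sub_e _).trans (le_of_eq ?_)
    rw [abs_mul, abs_of_nonneg (Nat.cast_nonneg N : (0 : ℝ) ≤ N), hd, abs_sub_comm x y]
    ring
  have h8 : ‖(∑ m ∈ Icc 1 N, c m * e (m * x)) * g N‖ ≤ M * (N * d) := by
    rw [norm_mul]
    exact mul_le_mul (h N le_rfl) h7 (norm_nonneg _) hM
  have h9 : ‖∑ n ∈ Icc 1 N, c n * e (n * x) * g n‖ ≤ N * d * M + M * (N * d) := by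
    have := norm_add_le (∑ m ∈ Icc 1 N, c m * e (m * x) * g m - (∑ m ∈ Icc 1 N, c m * e (m * x)) * g N)
      ((∑ m ∈ Icc 1 N, c m * e (m * x)) * g N)
    rw [sub_add_cancel] at this
    exact this.trans (add_le_add h6 h8)
  refine h9.trans ?_
  have h10 : 0 ≤ d * M := mul_nonneg hd0 hM
  calc (N : ℝ) * d * M + M * (N * d) = 2 * N * (d * M) := by ring
    _ ≤ 2 * (N + 1) * (d * M) := by nlinarith
    _ = 4 * Real.pi * (N + 1) * |x - y| * M := by rw [hd]; ring

end Pool.Agent.Helper51.EA
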